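import Pool.Agent.Lib.H51S.S8b

/-!
# H51S, chunk S8: the glued function is a homeomorphism of the plane
-/

set_option autoImplicit false

namespace H51S

open Set Metric Topology Filter MeasureTheory

/-- a local chart: near `z` the map `Φ` is `h ∘ g` with `g` a homeomorphism onto a disc and `h` holomorphic -/
structure S8Ch (Φ : ℂ → ℂ) (z : ℂ) (N : Set ℂ) (g k : ℂ → ℂ) (r : ℝ) : Prop where
  o : IsOpen N
  m : z ∈ N
  c : ContinuousOn g N
  i : InjOn g N
  r0 : 0 < r
  im : MapsTo g N (ball (g z) r)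
  d : DifferentiableOn ℂ k (ball (g z) r)
  eq : EqOn Φ (k ∘ g) N

theorem s8_chart {W E : Set ℂ} {f u v : ℂ → ℂ} (h : Hm W E f) (hu : DifferentiableOn ℂ u Eᶜ)
    (hv : DifferentiableOn ℂ v (f '' W)) (huv : ∀ z ∈ W \ E, u z = v (f z)) (z : ℂ) :
    ∃ N g k r, S8Ch (glue W f u v) z N g k r := by
  obtain ⟨hc, e2, e1⟩ := s5_cont h hu hv huv
  by_cases hz : z ∈ W
  · have ho := s3_open h h.o Subset.rfl
    obtain ⟨r, hr, hb⟩ := Metric.isOpen_iff.1 ho (f z) (mem_image_of_mem f hz)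
    refine ⟨W ∩ f ⁻¹' ball (f z) r, f, v, r, ⟨h.c.isOpen_inter_preimage h.o isOpen_ball,
      ⟨hz, mem_ball_self hr⟩, h.c.mono inter_subset_left, h.i.mono inter_subset_left, hr,
      fun x hx => hx.2, hv.mono hb, fun x hx => e1 x hx.1⟩⟩
  · have hzE : z ∈ Eᶜ := fun hc => hz (h.sub hc)
    have hEo : IsOpen Eᶜ := h.k.isClosed.isOpen_compl
    obtain ⟨r, hr, hb⟩ := Metric.isOpen_iff.1 hEo z hzE
    exact ⟨ball z r, id, u, r, ⟨isOpen_ball, mem_ball_self hr, continuousOn_id, injOn_id _, hr,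
      fun x hx => hx, hu.mono hb, fun x hx => e2 x (hb hx)⟩⟩

theorem s8_chopen {Φ : ℂ → ℂ} {z : ℂ} {N : Set ℂ} {g k : ℂ → ℂ} {r : ℝ} (h : S8Ch Φ z N g k r)
    {V : Set ℂ} (hV : IsOpen V) (hVN : V ⊆ N) : IsOpen (g '' V) :=
  H51R.a1_open hV (h.c.mono hVN) (h.i.mono hVN)

/-- constant near one point of the chart: constant on the chart -/
theorem s8_chconst {Φ : ℂ → ℂ} {z : ℂ} {N : Set ℂ} {g k : ℂ → ℂ} {r : ℝ} (h : S8Ch Φ z N g k r)
    {y c : ℂ} (hy : y ∈ N) (hc : ∀ᶠ x in 𝓝 y, Φ x = c) : ∀ x ∈ N, Φ x = c := by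
  obtain ⟨V, hVs, hVo, hyV⟩ := _root_.mem_nhds_iff.1 hc
  have h1 : k =ᶠ[𝓝 (g y)] fun _ => c := by
    have h2 := s8_chopen h (hVo.inter h.o) inter_subset_right
    filter_upwards [h2.mem_nhds (mem_image_of_mem g ⟨hyV, hy⟩)]
    rintro _ ⟨x, hx, rfl⟩
    have h3 : Φ x = c := hVs hx.1
    rw [← h3]
    exact (h.eq hx.2).symm
  have h2 := (h.d.analyticOnNhd isOpen_ball).eqOn_of_preconnected_of_eventuallyEq
    (analyticOnNhd_const (v := c)) (convex_ball _ _).isPreconnected (h.im hy) h1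
  intro x hx
  rw [h.eq hx]
  exact h2 (h.im hx)

theorem s8_nconst {W E : Set ℂ} {f u v : ℂ → ℂ} (h : Hm W E f) (hu : DifferentiableOn ℂ u Eᶜ)
    (hv : DifferentiableOn ℂ v (f '' W)) (huv : ∀ z ∈ W \ E, u z = v (f z))
    (h0 : Tendsto (fun z => u z - z) (cocompact ℂ) (𝓝 0)) (z : ℂ) :
    ¬ (∀ᶠ y in 𝓝 z, glue W f u v y = glue W f u v z) := by
  obtain ⟨hc, e2, e1⟩ := s5_cont h hu hv huv
  set Φ := glue W f u v with hΦ
  intro hz
  set Y : Set ℂ := {z | ∀ᶠ y in 𝓝 z, Φ y = Φ z} with hY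
  have hYo : IsOpen Y := by
    rw [isOpen_iff_mem_nhds]
    intro x hx
    have hx' : ∀ᶠ y in 𝓝 x, Φ y = Φ x := hx
    filter_upwards [hx'.eventually_nhds, hx'] with y hy1 hy2
    change ∀ᶠ w in 𝓝 y, Φ w = Φ y
    rw [hy2]
    exact hy1
  have hYc : IsClosed Y := by
    refine isClosed_of_closure_subset fun x hx => ?_
    obtain ⟨N, g, k, r, hch⟩ := s8_chart h hu hv huv x
    obtain ⟨y, hyN, hyY⟩ := (_root_.mem_closure_iff.1 hx) N hch.o hch.m
    have h1 := s8_chconst hch hyN hyY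
    change ∀ᶠ w in 𝓝 x, Φ w = Φ x
    filter_upwards [hch.o.mem_nhds hch.m] with w hw
    rw [hΦ, h1 w hw, h1 x hch.m]
  have hYu : Y = univ := IsClopen.eq_univ ⟨hYc, hYo⟩ ⟨z, hz⟩
  have hloc : IsLocallyConstant Φ := by
    rw [IsLocallyConstant.iff_eventually_eq]
    intro x
    have : x ∈ Y := by rw [hYu]; trivial
    exact this
  have hconst : ∀ x, Φ x = Φ 0 := fun x => hloc.apply_eq_of_preconnectedSpace x 0
  have h1 : Tendsto (fun z : ℂ => Φ 0 - z) (cocompact ℂ) (𝓝 0) := by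
    refine h0.congr' ?_
    have h2 : Eᶜ ∈ cocompact ℂ := h.k.compl_mem_cocompact
    filter_upwards [h2] with x hx
    rw [← e2 x hx, hconst x]
  have h2 : Tendsto (fun z : ℂ => z) (cocompact ℂ) (𝓝 (Φ 0)) := by
    have h3 := (tendsto_const_nhds (x := Φ 0) (f := cocompact ℂ)).sub h1
    simpa using h3
  have h3 : Tendsto (fun z : ℂ => ‖z‖) (cocompact ℂ) atTop := by
    rw [← Metric.cobounded_eq_cocompact]
    exact tendsto_norm_cobounded_atTop
  exact not_tendsto_nhds_of_tendsto_atTop h3 _ h2.norm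

/-- `Φ = glue W f u v` is open.  PROOF.  Let `Y` be the set of the points near which `Φ` is constant: open, and closed: let `z` be in
the closure of `Y`; if `z ∉ E`, `u` is holomorphic on a ball around `z` and constant on an open part of it, so constant (identity
theorem, `AnalyticOnNhd.eqOn_of_preconnected_of_eventuallyEq`); if `z ∈ W`, `v` is holomorphic on a ball around `f z` and constant near
`f y`, `y ∈ Y` near `z` (`f` is open, `H51R.a1_open`), so constant on the ball, and `Φ = v ∘ f`.  `Y` is not the plane because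
`Φ z - z → 0`.  So `Y = ∅`, and `AnalyticAt.eventually_constant_or_nhds_le_map_nhds` for `u` at `z ∉ E`, for `v` at `f z` (and `f` open)
if `z ∈ W`. -/
theorem s8_open {W E : Set ℂ} {f u v : ℂ → ℂ} (h : Hm W E f) (hu : DifferentiableOn ℂ u Eᶜ)
    (hv : DifferentiableOn ℂ v (f '' W)) (huv : ∀ z ∈ W \ E, u z = v (f z))
    (h0 : Tendsto (fun z => u z - z) (cocompact ℂ) (𝓝 0)) (z : ℂ) :
    ¬ (∀ᶠ y in 𝓝 z, glue W f u v y = glue W f u v z) ∧
      𝓝 (glue W f u v z) ≤ map (glue W f u v) (𝓝 z) := by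
  have hnc := s8_nconst h hu hv huv h0 z
  refine ⟨hnc, ?_⟩
  obtain ⟨N, g, k, r, hch⟩ := s8_chart h hu hv huv z
  have hka : AnalyticAt ℂ k (g z) := (hch.d.analyticOnNhd isOpen_ball) _ (mem_ball_self hch.r0)
  have hga : ContinuousAt g z := hch.c.continuousAt (hch.o.mem_nhds hch.m)
  have hgo : 𝓝 (g z) ≤ map g (𝓝 z) := by
    intro V hV
    rw [mem_map] at hV
    obtain ⟨V', hV's, hV'o, hzV'⟩ := _root_.mem_nhds_iff.1 hV
    have h2 := s8_chopen hch (hV'o.inter hch.o) inter_subset_right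
    refine mem_of_superset (h2.mem_nhds (mem_image_of_mem g ⟨hzV', hch.m⟩)) ?_
    rintro _ ⟨x, hx, rfl⟩
    exact hV's hx.1
  rcases hka.eventually_constant_or_nhds_le_map_nhds with h1 | h1
  · exfalso
    apply hnc
    filter_upwards [hga.eventually h1, hch.o.mem_nhds hch.m] with x hx hxN
    rw [hch.eq hxN, hch.eq hch.m]
    exact hx
  · have h2 : map (glue W f u v) (𝓝 z) = map k (map g (𝓝 z)) := by
      rw [Filter.map_map]
      refine Filter.map_congr ?_
      filter_upwards [hch.o.mem_nhds hch.m] with x hx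
      exact hch.eq hx
    rw [h2, hch.eq hch.m]
    exact h1.trans (Filter.map_mono hgo)

/-- The set of the points where `Φ` is not locally injective is countable.  PROOF.  Such a point `z` is a zero of `deriv u`
(if `z ∉ E`) or `f z` is a zero of `deriv v` (if `z ∈ W`) (`HasStrictDerivAt` with non-zero derivative is locally injective).  The
zeros of `deriv u` in `Eᶜ` are isolated in `Eᶜ`: if `deriv u` vanishes near `z` then `u` is constant near `z`, excluded by `s8_open`
(`AnalyticAt.eventually_eq_zero_or_eventually_ne_zero`); the same for `deriv v` on `f '' W`; a subset of the plane all of whose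
points have a neighbourhood with at most one point of the set is countable, and `f` is injective. -/
theorem s8_crit {W E : Set ℂ} {f u v : ℂ → ℂ} (h : Hm W E f) (hu : DifferentiableOn ℂ u Eᶜ)
    (hv : DifferentiableOn ℂ v (f '' W)) (huv : ∀ z ∈ W \ E, u z = v (f z))
    (h0 : Tendsto (fun z => u z - z) (cocompact ℂ) (𝓝 0)) :
    {z | ∀ V ∈ 𝓝 z, ¬ InjOn (glue W f u v) V}.Countable := by
  set C : Set ℂ := {z | ∀ V ∈ 𝓝 z, ¬ InjOn (glue W f u v) V} with hC
  have key : ∀ z : ℂ, ∃ V ∈ 𝓝 z, V ∩ C ⊆ {z} := by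
    intro z
    obtain ⟨N, g, k, r, hch⟩ := s8_chart h hu hv huv z
    have hkn := hch.d.analyticOnNhd isOpen_ball
    have hga : ContinuousAt g z := hch.c.continuousAt (hch.o.mem_nhds hch.m)
    rcases (hkn.deriv _ (mem_ball_self hch.r0)).eventually_eq_zero_or_eventually_ne_zero with h1 | h1
    · exfalso
      obtain ⟨ρ, hρ, hρs⟩ := Metric.eventually_nhds_iff_ball.mp
        (h1.and (isOpen_ball.eventually_mem (mem_ball_self hch.r0)))
      apply s8_nconst h hu hv huv h0 z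
      have h2 : ∀ w ∈ ball (g z) ρ, k w = k (g z) := fun w hw =>
        isOpen_ball.is_const_of_deriv_eq_zero (convex_ball _ ρ).isPreconnected
          (hch.d.mono fun x hx => (hρs x hx).2) (fun x hx => (hρs x hx).1) hw (mem_ball_self hρ)
      filter_upwards [hga.eventually (isOpen_ball.eventually_mem (mem_ball_self hρ)),
        hch.o.mem_nhds hch.m] with x hx hxN
      rw [hch.eq hxN, hch.eq hch.m]
      exact h2 _ hx
    · have h2 : ∀ᶠ w in 𝓝 (g z), w ≠ g z → deriv k w ≠ 0 := by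
        rwa [eventually_nhdsWithin_iff] at h1
      have h3 := (hga.eventually h2).and (hch.o.eventually_mem hch.m)
      refine ⟨_, h3, ?_⟩
      rintro y ⟨⟨hy1, hyN⟩, hyC⟩
      by_contra hyz
      have hyz' : y ≠ z := hyz
      have hgy : g y ≠ g z := fun he => hyz' (hch.i hyN hch.m he)
      have hd := hy1 hgy
      have hst : HasStrictDerivAt k (deriv k (g y)) (g y) := (hkn _ (hch.im hyN)).hasStrictDerivAt
      have h4 := (hst.hasStrictFDerivAt_equiv hd).eventually_left_inverse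
      have hgy' : ContinuousAt g y := hch.c.continuousAt (hch.o.mem_nhds hyN)
      have h5 := (hgy'.eventually h4).and (hch.o.eventually_mem hyN)
      refine hyC _ h5 ?_
      rintro a ⟨ha1, ha2⟩ b ⟨hb1, hb2⟩ hab
      apply hch.i ha2 hb2
      rw [hch.eq ha2, hch.eq hb2] at hab
      rw [← ha1, ← hb1]
      exact congrArg _ hab
  choose V hV hVC using key
  obtain ⟨s, hs, hsu⟩ := TopologicalSpace.countable_cover_nhds hV
  refine hs.mono fun x hx => ?_
  have h1 : x ∈ ⋃ y ∈ s, V y := by rw [hsu]; trivial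
  obtain ⟨y, hy, hxy⟩ := mem_iUnion₂.1 h1
  have h2 : x = y := hVC y ⟨hxy, hx⟩
  rw [h2]
  exact hy

/-- Injectivity near infinity.  PROOF.  `η z = u z - z` is holomorphic near infinity and tends to `0`, so there is `R₁` with
`E ⊆ ball 0 R₁` and `‖η z‖ ≤ 1/16`, and by the Cauchy estimate `‖deriv η z‖ ≤ 1/4`, for `‖z‖ > R₁`.  `Φ` is bounded on
`closedBall 0 (R₁ + 1)`, by `M`; if `‖w‖ > M` and `Φ a = w` then `‖a‖ > R₁ + 1` and `‖a - w‖ ≤ 1/16`.  So for two
preimages `a, b`: they lie in the ball `ball w (1/8)` contained in `{‖z‖ > R₁}`, so `‖η a - η b‖ ≤ ‖a - b‖ / 4` and `a = b`; the same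
estimate shows that `Φ` is injective on a ball around `a`. -/
theorem s8_inf {W E : Set ℂ} {f u v : ℂ → ℂ} (h : Hm W E f) (hu : DifferentiableOn ℂ u Eᶜ)
    (hv : DifferentiableOn ℂ v (f '' W)) (huv : ∀ z ∈ W \ E, u z = v (f z))
    (h0 : Tendsto (fun z => u z - z) (cocompact ℂ) (𝓝 0)) :
    ∃ M : ℝ, ∀ w : ℂ, M < ‖w‖ → (∀ a b, glue W f u v a = w → glue W f u v b = w → a = b) ∧
      ∀ a, glue W f u v a = w → ∃ V ∈ 𝓝 a, InjOn (glue W f u v) V := by
  obtain ⟨hc, e2, e1⟩ := s5_cont h hu hv huv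
  set Φ := glue W f u v with hΦ
  set η : ℂ → ℂ := fun z => u z - z with hη
  obtain ⟨R₁, hR₁⟩ : ∃ R : ℝ, ∀ z : ℂ, R < ‖z‖ → z ∈ Eᶜ ∧ ‖η z‖ ≤ 1 / 16 := by
    have h1 : ∀ᶠ z in cocompact ℂ, z ∈ Eᶜ ∧ ‖η z‖ ≤ 1 / 16 := by
      have h2 : Eᶜ ∈ cocompact ℂ := h.k.compl_mem_cocompact
      have h3 : Tendsto (fun z => ‖η z‖) (cocompact ℂ) (𝓝 0) := by simpa using h0.norm
      filter_upwards [h2, h3.eventually_le_const (show (0 : ℝ) < 1 / 16 by norm_num)] with z h4 h5
      exact ⟨h4, h5⟩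
    rw [← Metric.cobounded_eq_cocompact, ← comap_norm_atTop, eventually_comap] at h1
    obtain ⟨R, hR⟩ := (eventually_atTop.1 h1)
    exact ⟨R, fun z hz => hR ‖z‖ hz.le z rfl⟩
  have hηd : ∀ z : ℂ, R₁ < ‖z‖ → DifferentiableAt ℂ η z := by
    intro z hz
    exact (hu.differentiableAt (h.k.isClosed.isOpen_compl.mem_nhds (hR₁ z hz).1)).sub differentiableAt_id
  have hder : ∀ z : ℂ, R₁ + 1 < ‖z‖ → ‖deriv η z‖ ≤ 1 / 16 := by
    intro z hz
    have hsub : ∀ x ∈ closedBall z 1, R₁ < ‖x‖ := by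
      intro x hx
      rw [mem_closedBall, dist_eq_norm] at hx
      have := norm_sub_norm_le z x
      rw [norm_sub_rev] at this
      linarith
    have h1 := Complex.norm_deriv_le_of_forall_mem_sphere_norm_le (c := z) (R := 1) (C := 1 / 16)
      (f := η) one_pos (by
        refine DifferentiableOn.diffContOnCl_ball (U := closedBall z 1) ?_ Subset.rfl
        exact fun x hx => (hηd x (hsub x hx)).differentiableWithinAt) (fun x hx =>
          (hR₁ x (hsub x (sphere_subset_closedBall hx))).2)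
    simpa using h1
  have hinj : ∀ c : ℂ, R₁ + 2 < ‖c‖ → InjOn Φ (ball c 1) := by
    intro c hc1 a ha b hb hab
    have hsub : ∀ x ∈ ball c 1, R₁ + 1 < ‖x‖ := by
      intro x hx
      rw [mem_ball, dist_eq_norm] at hx
      have := norm_sub_norm_le c x
      rw [norm_sub_rev] at this
      linarith
    have h1 := (convex_ball c 1).norm_image_sub_le_of_norm_deriv_le (f := η) (C := 1 / 16)
      (fun x hx => hηd x (by linarith [hsub x hx])) (fun x hx => hder x (hsub x hx)) hb ha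
    have h2 : Φ a = a + η a := by
      rw [e2 a (hR₁ a (by linarith [hsub a ha])).1, hη]
      ring
    have h3 : Φ b = b + η b := by
      rw [e2 b (hR₁ b (by linarith [hsub b hb])).1, hη]
      ring
    have h4 : η a - η b = -(a - b) := by
      rw [h2, h3] at hab
      linear_combination hab
    rw [h4, norm_neg] at h1
    have h5 : ‖a - b‖ ≤ 0 := by
      have := norm_nonneg (a - b)
      linarith
    exact sub_eq_zero.1 (norm_le_zero_iff.1 h5)
  obtain ⟨M₀, hM₀⟩ := (isCompact_closedBall (0 : ℂ) (R₁ + 4)).exists_bound_of_continuousOn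
    hc.continuousOn
  refine ⟨M₀, fun w hw => ?_⟩
  have hfar : ∀ a, Φ a = w → R₁ + 4 < ‖a‖ ∧ ‖a - w‖ ≤ 1 / 16 := by
    intro a ha
    have h1 : R₁ + 4 < ‖a‖ := by
      by_contra hcon
      push Not at hcon
      have := hM₀ a (by rw [mem_closedBall_zero_iff]; exact hcon)
      rw [ha] at this
      linarith
    refine ⟨h1, ?_⟩
    have h2 := (hR₁ a (by linarith)).2
    have h3 : η a = w - a := by
      rw [← ha, e2 a (hR₁ a (by linarith)).1]
    rw [h3] at h2
    rwa [norm_sub_rev]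
  refine ⟨fun a b ha hb => ?_, fun a ha => ⟨ball a 1, ball_mem_nhds a one_pos,
    hinj a (by linarith [(hfar a ha).1])⟩⟩
  have h1 := hfar a ha
  have h2 := hfar b hb
  refine hinj w ?_ ?_ ?_ (ha.trans hb.symm)
  · have := norm_sub_norm_le a w
    linarith
  · rw [mem_ball, dist_eq_norm]
    linarith
  · rw [mem_ball, dist_eq_norm]
    linarith

/-- PROOF.  `Φ` is continuous (`s5_cont`), injective (`s8_abs`), open, and its range is open and closed (proper), so it is
surjective: a homeomorphism (`Homeomorph.homeomorphOfContinuousOpen` or `Equiv.toHomeomorphOfContinuousOpen`). -/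
theorem s8_homeo {W E : Set ℂ} {f u v : ℂ → ℂ} (h : Hm W E f) (hu : DifferentiableOn ℂ u Eᶜ)
    (hv : DifferentiableOn ℂ v (f '' W)) (huv : ∀ z ∈ W \ E, u z = v (f z))
    (h0 : Tendsto (fun z => u z - z) (cocompact ℂ) (𝓝 0)) :
    ∃ F : ℂ ≃ₜ ℂ, (∀ z ∈ Eᶜ, F z = u z) ∧ ∀ z ∈ W, F z = v (f z) := by
  obtain ⟨hc, e2, e1⟩ := s5_cont h hu hv huv
  have hop := fun z => (s8_open h hu hv huv h0 z).2
  have hcr := s8_crit h hu hv huv h0
  obtain ⟨M, hM⟩ := s8_inf h hu hv huv h0
  set Φ := glue W f u v with hΦ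
  have hp : Tendsto Φ (cocompact ℂ) (cocompact ℂ) := by
    rw [← Metric.cobounded_eq_cocompact, ← comap_norm_atTop, tendsto_comap_iff]
    have h2 : Tendsto (fun z : ℂ => ‖z‖ - 1) (comap norm atTop) atTop :=
      tendsto_atTop_add_const_right _ _ tendsto_comap
    refine tendsto_atTop_mono' _ ?_ h2
    rw [comap_norm_atTop, Metric.cobounded_eq_cocompact]
    have h3 : Eᶜ ∈ cocompact ℂ := h.k.compl_mem_cocompact
    have h4 : Tendsto (fun z => ‖u z - z‖) (cocompact ℂ) (𝓝 0) := by simpa using h0.norm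
    filter_upwards [h3, h4.eventually_le_const (show (0 : ℝ) < 1 by norm_num)] with z h5 h6
    rw [Function.comp_apply, e2 z h5]
    have := norm_sub_norm_le z (u z)
    rw [norm_sub_rev] at this
    linarith
  have hinj : Function.Injective Φ := s8_abs hc hp hop hcr hM
  have hopm : IsOpenMap Φ := isOpenMap_iff_nhds_le.2 hop
  have hprop : IsProperMap Φ := isProperMap_iff_tendsto_cocompact.2 ⟨hc, hp⟩
  have huniv : range Φ = univ :=
    IsClopen.eq_univ ⟨hprop.isClosedMap.isClosed_range, hopm.isOpen_range⟩ ⟨Φ 0, mem_range_self 0⟩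
  have hsurj : Function.Surjective Φ := range_eq_univ.1 huniv
  exact ⟨(Equiv.ofBijective Φ ⟨hinj, hsurj⟩).toHomeomorphOfContinuousOpen hc hopm,
    fun z hz => e2 z hz, fun z hz => e1 z hz⟩

end H51S
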