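import Pool.Agent.Lib.H51S.S7
import Pool.Agent.Lib.H51S.S8
import Pool.Agent.Lib.H51R.E1

/-!
# H51S, chunk S9: conformal sewing, and removability for neighbourhoods
-/

set_option autoImplicit false

namespace H51S

open Set Metric Topology Filter MeasureTheory

/-- Sewing.  PROOF.  `s1_exists` gives `κ₁` for `(W, E)` and `κ₂` for `(O, E)`, `O = interior {κ₁ = 1}` (`E ⊆ O` by `Cut.one`);
`s7_solve`, `s6_main` with `c = 1`, `s8_homeo` for `Hm O E f` (`s3_mono`). -/
theorem s9_sew {W E : Set ℂ} {f : ℂ → ℂ} (h : Hm W E f) :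
    ∃ (O : Set ℂ) (F : ℂ ≃ₜ ℂ) (v : ℂ → ℂ), IsOpen O ∧ E ⊆ O ∧ O ⊆ W ∧ DifferentiableOn ℂ F Eᶜ ∧
      DifferentiableOn ℂ v (f '' O) ∧ ∀ z ∈ O, F z = v (f z) := by
  obtain ⟨κ₁, h₁⟩ := s1_exists h.o h.k h.sub
  obtain ⟨hOW, hEO⟩ := s6_sub h₁
  obtain ⟨κ₂, h₂⟩ := s1_exists isOpen_interior h.k hEO
  obtain ⟨w, hw, he⟩ := s7_solve h h₁ h₂
  obtain ⟨u, v, G, hu, -, hv, h0, -, huv, -⟩ := s6_main h h₁ h₂ hw 1 (fun z hz => by
    rw [one_mul]; exact he z hz)
  simp only [one_mul] at h0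
  obtain ⟨F, hF1, hF2⟩ := s8_homeo (s3_mono h isOpen_interior hOW hEO) hu hv huv h0
  exact ⟨_, F, v, isOpen_interior, hEO, hOW, hu.congr hF1, hv, hF2⟩

/-- A removable compact set is removable for homeomorphisms of its neighbourhoods.  PROOF.  `s9_sew`; `F` is entire; `v` is
injective on the open set `f '' O`, so it has a holomorphic inverse `φ` (`H51R.b3_inverse`) and `f = φ ∘ F` on `O`. -/
theorem s9_nhd {W E : Set ℂ} {f : ℂ → ℂ} (h : Hm W E f) (hr : H51R.Removable E) :
    DifferentiableOn ℂ f W := by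
  obtain ⟨O, F, v, hO, hEO, hOW, hF, hv, hFv⟩ := s9_sew h
  have hent := hr F hF
  have hfO : IsOpen (f '' O) := s3_open h hO hOW
  have hvi : InjOn v (f '' O) := by
    rintro _ ⟨a, ha, rfl⟩ _ ⟨b, hb, rfl⟩ hab
    rw [← hFv a ha, ← hFv b hb] at hab
    rw [F.injective hab]
  obtain ⟨hvo, φ, hφ, hφv⟩ := H51R.b3_inverse hfO hv hvi
  have hfd : DifferentiableOn ℂ f O := by
    have h1 : DifferentiableOn ℂ (φ ∘ F) O := by
      refine hφ.comp hent.differentiableOn fun z hz => ?_
      rw [hFv z hz]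
      exact mem_image_of_mem v (mem_image_of_mem f hz)
    refine h1.congr fun z hz => ?_
    rw [Function.comp_apply, hFv z hz, hφv _ (mem_image_of_mem f hz)]
  intro z hz
  by_cases hzO : z ∈ O
  · exact (hfd.differentiableAt (hO.mem_nhds hzO)).differentiableWithinAt
  · have hzE : z ∉ E := fun hc => hzO (hEO hc)
    exact (s3_da h ⟨hz, hzE⟩).differentiableWithinAt

/-- A homeomorphism of an open set, conformal off a removable compact set `E`, is conformal near every point whose component in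
`E` is a point.  PROOF.  If `z ∉ E`, clear.  Otherwise, in the compact space `E` the component of `z` is the intersection of the
clopen sets which contain `z` (`connectedComponent_eq_iInter_isClopen`), so there is a clopen subset `E''` of `E` with
`z ∈ E'' ⊆ U` (compactness).  `E''` and `E \ E''` are compact; `W = U \ (E \ E'')` is open, `Hm W E'' f`, and `E''` is removable
(`H51R.e1_mono`); `s9_nhd`. -/
theorem s9_point {E U : Set ℂ} {f : ℂ → ℂ} (hE : IsCompact E) (hr : H51R.Removable E) (hU : IsOpen U)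
    (hc : ContinuousOn f U) (hi : InjOn f U) (hd : DifferentiableOn ℂ f (U \ E)) {z : ℂ}
    (hz : z ∈ U) (hs : (connectedComponentIn E z).Subsingleton) :
    ∀ᶠ w in 𝓝 z, DifferentiableAt ℂ f w := by
  by_cases hzE : z ∈ E
  · have : CompactSpace E := isCompact_iff_compactSpace.1 hE
    obtain ⟨Z, hZU⟩ : ∃ s : { s : Set E // IsClopen s ∧ (⟨z, hzE⟩ : E) ∈ s },
        (s : Set E) ⊆ Subtype.val ⁻¹' U := by
      have : Nonempty { s : Set E // IsClopen s ∧ (⟨z, hzE⟩ : E) ∈ s } := ⟨⟨univ, isClopen_univ, mem_univ _⟩⟩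
      refine exists_subset_nhds_of_compactSpace
        (V := fun s : { s : Set E // IsClopen s ∧ (⟨z, hzE⟩ : E) ∈ s } => (s : Set E)) ?_
        (fun s => s.2.1.1) ?_
      · rintro ⟨a, ha, hza⟩ ⟨b, hb, hzb⟩
        exact ⟨⟨a ∩ b, ha.inter hb, hza, hzb⟩, inter_subset_left, inter_subset_right⟩
      · intro x hx
        rw [← connectedComponent_eq_iInter_isClopen] at hx
        have h1 : (x : ℂ) ∈ connectedComponentIn E z := by
          rw [connectedComponentIn_eq_image hzE]
          exact mem_image_of_mem _ hx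
        have h2 : (x : ℂ) = z := hs h1 (mem_connectedComponentIn hzE)
        refine (hU.preimage continuous_subtype_val).mem_nhds ?_
        rw [mem_preimage, h2]
        exact hz
    obtain ⟨Z, hZc, hzZ⟩ := Z
    set E₁ : Set ℂ := Subtype.val '' Z with hE₁
    set E₂ : Set ℂ := Subtype.val '' Zᶜ with hE₂
    have k1 : IsCompact E₁ := hZc.1.isCompact.image continuous_subtype_val
    have k2 : IsCompact E₂ := hZc.compl.1.isCompact.image continuous_subtype_val
    have hmem : ∀ x ∈ E, x ∈ E₁ ∨ x ∈ E₂ := by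
      intro x hx
      by_cases h1 : (⟨x, hx⟩ : E) ∈ Z
      · exact Or.inl ⟨_, h1, rfl⟩
      · exact Or.inr ⟨_, h1, rfl⟩
    have hdis : ∀ x ∈ E₁, x ∉ E₂ := by
      rintro _ ⟨x, hx, rfl⟩ ⟨y, hy, hxy⟩
      exact hy (Subtype.val_injective hxy ▸ hx)
    have hHm : Hm (U \ E₂) E₁ f := by
      refine ⟨hU.sdiff k2.isClosed, k1, ?_, hc.mono sdiff_subset, hi.mono sdiff_subset,
        hd.mono ?_⟩
      · rintro x hx
        refine ⟨?_, hdis x hx⟩
        obtain ⟨y, hy, rfl⟩ := hx
        exact hZU hy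
      · rintro x ⟨⟨hxU, hx2⟩, hx1⟩
        refine ⟨hxU, fun hxE => ?_⟩
        rcases hmem x hxE with h | h
        · exact hx1 h
        · exact hx2 h
    have hsub : E₁ ⊆ E := by
      rintro _ ⟨x, hx, rfl⟩
      exact x.2
    have h1 := s9_nhd hHm (H51R.e1_mono hr hsub)
    have hz1 : z ∈ U \ E₂ := hHm.sub ⟨⟨z, hzE⟩, hzZ, rfl⟩
    filter_upwards [hHm.o.mem_nhds hz1] with w hw
    exact h1.differentiableAt (hHm.o.mem_nhds hw)
  · have ho : IsOpen (U \ E) := hU.sdiff hE.isClosed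
    filter_upwards [ho.mem_nhds ⟨hz, hzE⟩] with w hw
    exact hd.differentiableAt (ho.mem_nhds hw)

end H51S
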