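import Pool.Agent.Lib.H27.Weyl
import Pool.Agent.Lib.H51R.A1
import Pool.Agent.Lib.H51R.B3

/-!
# H51S (MP_699e20_an): conformal sewing.  Definitions.

See PROOF.md.  A homeomorphism `f` of an open set `W` which is conformal off a compact subset `E` extends, after a
conformal change of the target, to a homeomorphism of the plane which is conformal off `E`.
-/

set_option autoImplicit false

namespace H51S

open Set Metric Topology Filter MeasureTheory
open Pool.Agent.Lib.H27 (dzb)

/-- the Cauchy transform, normalised by `dzb (CT φ) = φ` -/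
noncomputable def CT (φ : ℂ → ℂ) (z : ℂ) : ℂ := (Real.pi : ℂ)⁻¹ * ∫ ζ, (z - ζ)⁻¹ * φ ζ

/-- `f` is a homeomorphism of the open set `W` onto its image, conformal off the compact set `E ⊆ W` -/
structure Hm (W E : Set ℂ) (f : ℂ → ℂ) : Prop where
  o : IsOpen W
  k : IsCompact E
  sub : E ⊆ W
  c : ContinuousOn f W
  i : InjOn f W
  d : DifferentiableOn ℂ f (W \ E)

/-- `κ` is a cut-off function for the pair `(W, E)` -/
structure Cut (W E : Set ℂ) (κ : ℂ → ℂ) : Prop where
  smooth : ContDiff ℝ 1 κ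
  cs : HasCompactSupport κ
  sub : tsupport κ ⊆ W
  one : ∀ᶠ z in 𝓝ˢ E, κ z = 1

/-- the part of `g` (holomorphic in `W \ E`) which is holomorphic in `W` -/
noncomputable def intPart (κ g : ℂ → ℂ) (z : ℂ) : ℂ :=
  CT (fun ζ => g ζ * dzb κ ζ) z + (1 - κ z) * g z

/-- the part of `g` (holomorphic in `W \ E`) which is holomorphic in `Eᶜ` -/
noncomputable def extPart (κ g : ℂ → ℂ) (z : ℂ) : ℂ :=
  κ z * g z - CT (fun ζ => g ζ * dzb κ ζ) z

theorem int_add_ext (κ g : ℂ → ℂ) (z : ℂ) : intPart κ g z + extPart κ g z = g z := by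
  unfold intPart extPart
  ring

/-- the cut-off function `κ` transported by `f` -/
noncomputable def push (W : Set ℂ) (f κ : ℂ → ℂ) (ω : ℂ) : ℂ :=
  open Classical in if ω ∈ f '' W then κ (Function.invFunOn f W ω) else 0

/-- `CT ((w ∘ f⁻¹) * dzb (push κ))`, as an integral over the `ξ`-plane -/
noncomputable def qq (f κ w : ℂ → ℂ) (ω : ℂ) : ℂ :=
  (Real.pi : ℂ)⁻¹ * ∫ ξ, (ω - f ξ)⁻¹ * (w ξ * (dzb κ ξ * deriv f ξ))

/-- the operator of the integral equation `w + SS w = id` -/
noncomputable def SS (f κ₁ κ₂ w : ℂ → ℂ) (z : ℂ) : ℂ :=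
  CT (fun ζ => qq f κ₂ w (f ζ) * dzb κ₁ ζ) z

/-- the two functions glued together -/
noncomputable def glue (W : Set ℂ) (f u v : ℂ → ℂ) (z : ℂ) : ℂ :=
  open Classical in if z ∈ W then v (f z) else u z

end H51S
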