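import Pool.Agent.Lib.H51S.D0

/-!
# H51S, chunk S1: the Cauchy transform, cut-off functions
-/

set_option autoImplicit false

namespace H51S

open Set Metric Topology Filter MeasureTheory
open Pool.Agent.Lib.H27 (dzb)

theorem s1_int {φ : ℂ → ℂ} (h : Continuous φ) (hs : HasCompactSupport φ) (z : ℂ) :
    Integrable (fun ζ => (z - ζ)⁻¹ * φ ζ) := by
  have h1 : Integrable (fun t : ℂ => t⁻¹ * φ (z - t)) :=
    Pool.Agent.Lib.H27.integrable_inv_mul (g := fun t => φ (z - t)) (h.comp (continuous_const.sub continuous_id))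
      (hs.comp_homeomorph (Homeomorph.subLeft z))
  have h2 := h1.comp_sub_left z
  refine h2.congr (Eventually.of_forall fun ζ => ?_)
  simp only [sub_sub_cancel]

theorem s1_far {φ : ℂ → ℂ} {z : ℂ} (hz : z ∉ tsupport φ) : ∃ r : ℝ, 0 < r ∧ ∀ x ∈ ball z r, ∀ w, φ w ≠ 0 → r ≤ ‖x - w‖ := by
  obtain ⟨r, hr, hrs⟩ := Metric.isOpen_iff.mp (isClosed_tsupport φ).isOpen_compl z hz
  refine ⟨r / 2, by linarith, fun x hx w hw => ?_⟩
  have h1 : w ∉ ball z r := fun h => hrs h (subset_tsupport φ hw)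
  rw [mem_ball, not_lt] at h1
  rw [mem_ball] at hx
  have h2 := dist_triangle w x z
  rw [← dist_eq_norm, dist_comm x w]
  linarith

/-- Cauchy-Pompeiu.  PROOF.  `Pool.Agent.Lib.H27.cauchy_pompeiu`. -/
theorem s1_pompeiu {ψ : ℂ → ℂ} (h : ContDiff ℝ 1 ψ) (hs : HasCompactSupport ψ) (z : ℂ) :
    CT (dzb ψ) z = ψ z := by
  have h1 := Pool.Agent.Lib.H27.cauchy_pompeiu h hs z
  have h2 : ∫ ζ, (z - ζ)⁻¹ * dzb ψ ζ = - ∫ t, (t - z)⁻¹ * dzb ψ t := by
    rw [← integral_neg]
    congr 1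
    funext t
    rw [← neg_sub t z, inv_neg]
    ring
  unfold CT
  rw [h2, h1]
  have hpi : (Real.pi : ℂ) ≠ 0 := by exact_mod_cast Real.pi_ne_zero
  field_simp


/-- PROOF.  Integrability of `ζ ↦ (z - ζ)⁻¹ * φ ζ` for continuous `φ` with compact support
(`Pool.Agent.Lib.H27.integrable_inv_mul` after a translation) and linearity of the integral. -/
theorem s1_sub {φ ψ : ℂ → ℂ} (h : Continuous φ) (hs : HasCompactSupport φ) (h' : Continuous ψ)
    (hs' : HasCompactSupport ψ) (z : ℂ) : CT (fun ζ => φ ζ - ψ ζ) z = CT φ z - CT ψ z := by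
  unfold CT
  rw [← mul_sub, ← integral_sub (s1_int h hs z) (s1_int h' hs' z)]
  congr 2
  funext ζ
  ring


/-- PROOF.  Differentiate under the integral sign (`hasDerivAt_integral_of_dominated_loc_of_deriv_le`), as in
`Pool.Agent.Lib.H27.weyl_local`. -/
theorem s1_diff {φ : ℂ → ℂ} (h : Continuous φ) (hs : HasCompactSupport φ) :
    DifferentiableOn ℂ (CT φ) (tsupport φ)ᶜ := by
  have hF : Integrable φ := h.integrable_of_hasCompactSupport hs
  intro z hz
  apply DifferentiableAt.differentiableWithinAt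
  obtain ⟨r, hr, hdist⟩ := s1_far hz
  unfold CT
  apply DifferentiableAt.const_mul
  have hmeas : ∀ x : ℂ, AEStronglyMeasurable (fun w => (x - w)⁻¹ * φ w) volume := by
    intro x
    exact ((measurable_const.sub measurable_id).inv.aestronglyMeasurable).mul hF.aestronglyMeasurable
  have key := hasDerivAt_integral_of_dominated_loc_of_deriv_le (μ := (volume : Measure ℂ))
    (F := fun x w => (x - w)⁻¹ * φ w)
    (F' := fun x w => (-((x - w) ^ 2)⁻¹) * φ w)
    (x₀ := z) (s := ball z r) (bound := fun w => (r ^ 2)⁻¹ * ‖φ w‖)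
    (isOpen_ball.mem_nhds (mem_ball_self hr)) (Eventually.of_forall hmeas) ?_ ?_ ?_ ?_ ?_
  · exact key.2.differentiableAt
  · exact s1_int h hs z
  · exact (((measurable_const.sub measurable_id).pow_const 2).inv.neg.aestronglyMeasurable).mul
      hF.aestronglyMeasurable
  · apply Eventually.of_forall
    intro w x hx
    rw [norm_mul]
    by_cases hw : φ w = 0
    · simp [hw]
    · apply mul_le_mul_of_nonneg_right _ (norm_nonneg _)
      rw [norm_neg, norm_inv, norm_pow]
      exact inv_anti₀ (by positivity) (pow_le_pow_left₀ hr.le (hdist x hx w hw) 2)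
  · exact hF.norm.const_mul _
  · apply Eventually.of_forall
    intro w x hx
    by_cases hw : φ w = 0
    · simp only [hw, mul_zero]
      exact hasDerivAt_const _ _
    · have hne : x - w ≠ 0 := by
        intro h0
        have h1 := hdist x hx w hw
        rw [h0, norm_zero] at h1
        linarith
      have h1 : HasDerivAt (fun x : ℂ => x - w) 1 x := (hasDerivAt_id x).sub_const w
      have h2 := h1.inv hne
      have h3 := h2.mul_const (φ w)
      have h4 : -((x - w) ^ 2)⁻¹ * φ w = -1 / (x - w) ^ 2 * φ w := by ring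
      change HasDerivAt (fun x => (x - w)⁻¹ * φ w) (-((x - w) ^ 2)⁻¹ * φ w) x
      rw [h4]
      exact h3


/-- PROOF.  `tsupport φ ⊆ closedBall 0 R`; for `‖z‖ ≥ 2 R`, `‖CT φ z‖ ≤ π⁻¹ * (‖z‖ - R)⁻¹ * ∫ ‖φ‖`. -/
theorem s1_zero {φ : ℂ → ℂ} (h : Continuous φ) (hs : HasCompactSupport φ) :
    Tendsto (CT φ) (cocompact ℂ) (𝓝 0) := by
  obtain ⟨R, hR⟩ := (isBounded_iff_forall_norm_le.1 hs.isCompact.isBounded)
  have hF : Integrable φ := h.integrable_of_hasCompactSupport hs
  have hb : ∀ z : ℂ, R < ‖z‖ → ‖CT φ z‖ ≤ Real.pi⁻¹ * ((∫ ζ, ‖φ ζ‖) / (‖z‖ - R)) := by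
    intro z hz
    unfold CT
    rw [norm_mul, norm_inv, Complex.norm_real, Real.norm_eq_abs, abs_of_pos Real.pi_pos]
    refine mul_le_mul_of_nonneg_left ?_ (inv_nonneg.2 Real.pi_pos.le)
    refine (norm_integral_le_integral_norm _).trans ?_
    rw [div_eq_mul_inv, mul_comm, ← integral_const_mul]
    refine integral_mono_of_nonneg (Eventually.of_forall fun ζ => norm_nonneg _) (hF.norm.const_mul _)
      (Eventually.of_forall fun ζ => ?_)
    simp only
    rw [norm_mul]
    by_cases hw : φ ζ = 0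
    · simp [hw]
    · apply mul_le_mul_of_nonneg_right _ (norm_nonneg _)
      rw [norm_inv]
      have h1 := hR ζ (subset_tsupport φ hw)
      have h2 : ‖z‖ ≤ ‖z - ζ‖ + ‖ζ‖ := by simpa using norm_add_le (z - ζ) ζ
      exact inv_anti₀ (by linarith) (by linarith)
  rw [tendsto_zero_iff_norm_tendsto_zero]
  have h1 : Tendsto (fun z : ℂ => Real.pi⁻¹ * ((∫ ζ, ‖φ ζ‖) / (‖z‖ - R))) (cocompact ℂ) (𝓝 0) := by
    have h2 : Tendsto (fun z : ℂ => ‖z‖ - R) (cocompact ℂ) atTop := by
      simpa [sub_eq_add_neg] using tendsto_atTop_add_const_right (cocompact ℂ) (-R) (tendsto_norm_cocompact_atTop (E := ℂ))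
    have h3 := (tendsto_const_nhds (x := ∫ ζ, ‖φ ζ‖)).div_atTop h2
    simpa using h3.const_mul Real.pi⁻¹
  refine squeeze_zero' (Eventually.of_forall fun z => norm_nonneg _) ?_ h1
  filter_upwards [(tendsto_norm_cocompact_atTop (E := ℂ)).eventually_gt_atTop R] with z hz
  exact hb z hz


/-- PROOF.  `Pool.Agent.Lib.H27.exists_cutoff_compact`. -/
theorem s1_exists {W E : Set ℂ} (hW : IsOpen W) (hE : IsCompact E) (h : E ⊆ W) :
    ∃ κ : ℂ → ℂ, Cut W E κ := by
  obtain ⟨χ, h1, h2, h3, h4, h5⟩ := Pool.Agent.Lib.H27.exists_cutoff_compact hE hW h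
  have hsupp : tsupport (fun z => (χ z : ℂ)) ⊆ tsupport χ := by
    apply closure_mono
    intro z hz hz'
    exact hz (by simp [hz'])
  refine ⟨fun z => (χ z : ℂ), ?_, h3.comp_left (g := fun x : ℝ => (x : ℂ)) (by simp), hsupp.trans h4, ?_⟩
  · exact Complex.ofRealCLM.contDiff.comp (contDiff_infty.mp h1 1)
  · filter_upwards [h2] with z hz
    rw [hz, Complex.ofReal_one]


/-- PROOF.  `κ = 1` near every point of `E` (so `dzb κ = 0` there) and `κ = 0` off its support. -/
theorem s1_supp {W E : Set ℂ} {κ : ℂ → ℂ} (h : Cut W E κ) :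
    IsCompact (tsupport (dzb κ)) ∧ tsupport (dzb κ) ⊆ W \ E := by
  have h1 : HasCompactSupport (dzb κ) := Pool.Agent.Lib.H27.hasCompactSupport_dzb h.cs
  refine ⟨h1, fun z hz => ?_⟩
  have h2 : tsupport (dzb κ) ⊆ tsupport κ := by
    refine closure_minimal (fun w hw => ?_) (isClosed_tsupport κ)
    by_contra hcon
    exact hw (Pool.Agent.Lib.H27.dzb_eq_zero_of_notMem hcon)
  refine ⟨h.sub (h2 hz), fun hzE => ?_⟩
  have h3 : ∀ᶠ x in 𝓝 z, κ x = 1 := (eventually_nhdsSet_iff_forall.mp h.one) z hzE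
  have h4 : ∀ᶠ x in 𝓝 z, dzb κ x = 0 := by
    filter_upwards [h3.eventually_nhds] with x hx
    have h5 : κ =ᶠ[𝓝 x] fun _ => 1 := hx
    rw [Pool.Agent.Lib.H27.dzb_congr h5, dzb]
    simp
  exact (notMem_tsupport_iff_eventuallyEq.mpr h4) hz


/-- PROOF.  `dzb κ` is continuous with compact support in the open set `W \ E`, where `g` is continuous. -/
theorem s1_cont {W E : Set ℂ} {κ g : ℂ → ℂ} (hW : IsOpen W) (hE : IsCompact E) (h : Cut W E κ)
    (hg : ContinuousOn g (W \ E)) : Continuous (fun ζ => g ζ * dzb κ ζ) ∧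
      HasCompactSupport (fun ζ => g ζ * dzb κ ζ) ∧
      tsupport (fun ζ => g ζ * dzb κ ζ) ⊆ tsupport (dzb κ) := by
  obtain ⟨h1, h2⟩ := s1_supp h
  have ho : IsOpen (W \ E) := hW.sdiff hE.isClosed
  have hd : Continuous (dzb κ) := by
    unfold Pool.Agent.Lib.H27.dzb
    exact continuous_const.mul ((Pool.Agent.Lib.H27.cont_fderiv_apply h.smooth 1).add
      (continuous_const.mul (Pool.Agent.Lib.H27.cont_fderiv_apply h.smooth Complex.I)))
  have h3 : tsupport (fun ζ => g ζ * dzb κ ζ) ⊆ tsupport (dzb κ) := closure_mono (Function.support_mul_subset_right _ _)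
  have h4 : Continuous (fun ζ => g ζ * dzb κ ζ) := by
    refine continuous_iff_continuousAt.2 fun z => ?_
    by_cases hz : z ∈ tsupport (dzb κ)
    · exact (hg.continuousAt (ho.mem_nhds (h2 hz))).mul hd.continuousAt
    · have h5 : (fun ζ => g ζ * dzb κ ζ) =ᶠ[𝓝 z] fun _ => 0 := by
        filter_upwards [notMem_tsupport_iff_eventuallyEq.mp hz] with x hx
        rw [hx]
        simp
      exact continuousAt_const.congr h5.symm
  exact ⟨h4, h1.of_isClosed_subset (isClosed_tsupport _) h3, h3⟩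


end H51S
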