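import Pool.Agent.Lib.H51S.S1

/-!
# H51S, chunk S2: Laurent decomposition
-/

set_option autoImplicit false

namespace H51S

open Set Metric Topology Filter MeasureTheory
open Pool.Agent.Lib.H27 (dzb)

theorem s2_gd {W E : Set ℂ} {g : ℂ → ℂ} (hW : IsOpen W) (hE : IsCompact E)
    (hg : DifferentiableOn ℂ g (W \ E)) {z : ℂ} (hz : z ∈ W \ E) :
    DifferentiableAt ℂ g z ∧ ContDiffAt ℝ 1 g z ∧ dzb g z = 0 := by
  have ho : IsOpen (W \ E) := hW.sdiff hE.isClosed
  have h1 : DifferentiableAt ℂ g z := hg.differentiableAt (ho.mem_nhds hz)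
  have h2 : ContDiffAt ℂ 1 g z := (hg.contDiffOn ho).contDiffAt (ho.mem_nhds hz)
  exact ⟨h1, h2.restrict_scalars ℝ, (Pool.Agent.Lib.H27.differentiableAt_iff_dzb (h1.restrictScalars ℝ)).1 h1⟩

/-- The decomposition does not depend on the cut-off function.  PROOF.  The function `ψ = (κ' - κ) * g` has compact
support in `W \ E` (`κ' - κ` vanishes near `E` and off a compact subset of `W`) and is `C¹` there (`g` is holomorphic on the
open set `W \ E`), so it is `C¹` on the plane; `dzb ψ = g * dzb κ' - g * dzb κ` (`dzb g = 0` on `W \ E`;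
`Pool.Agent.Lib.H27.dzb_mul` or as in `Helper82/Mob/Wirt.lean`).  `s1_pompeiu` and `s1_sub`. -/
theorem s2_indep {W E : Set ℂ} {κ κ' g : ℂ → ℂ} (hW : IsOpen W) (hE : IsCompact E) (h : Cut W E κ)
    (h' : Cut W E κ') (hg : DifferentiableOn ℂ g (W \ E)) (z : ℂ) :
    CT (fun ζ => g ζ * dzb κ' ζ) z - CT (fun ζ => g ζ * dzb κ ζ) z = (κ' z - κ z) * g z := by
  obtain ⟨c1, c2, _⟩ := s1_cont hW hE h hg.continuousOn
  obtain ⟨c1', c2', _⟩ := s1_cont hW hE h' hg.continuousOn
  set δ : ℂ → ℂ := fun z => κ' z - κ z with hδ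
  have hδs : ContDiff ℝ 1 δ := h'.smooth.sub h.smooth
  have hδt : tsupport δ ⊆ W \ E := by
    intro x hx
    refine ⟨?_, fun hxE => ?_⟩
    · have h1 : tsupport δ ⊆ tsupport κ' ∪ tsupport κ := tsupport_sub κ' κ
      rcases h1 hx with h2 | h2
      · exact h'.sub h2
      · exact h.sub h2
    · have h3 : ∀ᶠ y in 𝓝 x, κ y = 1 := (eventually_nhdsSet_iff_forall.mp h.one) x hxE
      have h4 : ∀ᶠ y in 𝓝 x, κ' y = 1 := (eventually_nhdsSet_iff_forall.mp h'.one) x hxE
      refine (notMem_tsupport_iff_eventuallyEq.mpr ?_) hx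
      filter_upwards [h3, h4] with y h5 h6
      simp [hδ, h5, h6]
  have hδc : HasCompactSupport δ := h'.cs.sub h.cs
  set ψ : ℂ → ℂ := fun z => δ z * g z with hψ
  have hψs : ContDiff ℝ 1 ψ := by
    rw [contDiff_iff_contDiffAt]
    intro x
    by_cases hx : x ∈ tsupport δ
    · exact hδs.contDiffAt.mul (s2_gd hW hE hg (hδt hx)).2.1
    · have h5 : ψ =ᶠ[𝓝 x] fun _ => 0 := by
        filter_upwards [notMem_tsupport_iff_eventuallyEq.mp hx] with y hy
        simp [hψ, hy]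
      exact contDiffAt_const.congr_of_eventuallyEq h5
  have hψc : HasCompactSupport ψ := hδc.mul_right
  have hd : ∀ x, dzb ψ x = g x * dzb κ' x - g x * dzb κ x := by
    intro x
    have hdδ : dzb δ x = dzb κ' x - dzb κ x := by
      have e1 : δ = fun z => κ' z + (-κ z) := by
        funext z
        simp [hδ, sub_eq_add_neg]
      have d1 : DifferentiableAt ℝ κ' x := (h'.smooth.differentiable (by norm_num)) x
      have d2 : DifferentiableAt ℝ κ x := (h.smooth.differentiable (by norm_num)) x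
      rw [e1, Pool.Agent.Lib.H27.dzb_add d1 (show DifferentiableAt ℝ (fun z => -κ z) x from d2.neg), Pool.Agent.Lib.H27.dzb_neg]
      ring
    by_cases hx : x ∈ tsupport δ
    · obtain ⟨g1, g2, g3⟩ := s2_gd hW hE hg (hδt hx)
      rw [hψ, Pool.Agent.Lib.H27.dzb_mul ((hδs.differentiable (by norm_num)) x) (g1.restrictScalars ℝ), g3, hdδ]
      ring
    · have h5 : ψ =ᶠ[𝓝 x] fun _ => 0 := by
        filter_upwards [notMem_tsupport_iff_eventuallyEq.mp hx] with y hy
        simp [hψ, hy]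
      have h6 : δ =ᶠ[𝓝 x] fun _ => 0 := notMem_tsupport_iff_eventuallyEq.mp hx
      have h7 : dzb δ x = 0 := by
        rw [Pool.Agent.Lib.H27.dzb_congr h6]
        simp [Pool.Agent.Lib.H27.dzb]
      have h8 : dzb ψ x = 0 := by
        rw [Pool.Agent.Lib.H27.dzb_congr h5]
        simp [Pool.Agent.Lib.H27.dzb]
      rw [h8, ← mul_sub, ← hdδ, h7, mul_zero]
  have h1 := s1_pompeiu hψs hψc z
  have h2 : dzb ψ = fun ζ => g ζ * dzb κ' ζ - g ζ * dzb κ ζ := funext hd
  rw [h2, s1_sub c1' c2' c1 c2] at h1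
  exact h1


/-- a cut-off function which vanishes near `z` -/
theorem s2_small {W E : Set ℂ} (hW : IsOpen W) (hE : IsCompact E) (hEW : E ⊆ W) {z : ℂ} (hzE : z ∉ E) :
    ∃ κ : ℂ → ℂ, Cut W E κ ∧ z ∉ tsupport κ := by
  obtain ⟨κ, hκ⟩ := s1_exists (W := W \ {z}) (E := E) (hW.sdiff isClosed_singleton) hE
    (fun x hx => ⟨hEW hx, fun h => hzE (by rwa [mem_singleton_iff.1 h] at hx)⟩)
  exact ⟨κ, ⟨hκ.smooth, hκ.cs, hκ.sub.trans sdiff_subset, hκ.one⟩, fun h => (hκ.sub h).2 rfl⟩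

theorem s2_sub {W E : Set ℂ} {κ : ℂ → ℂ} (h : Cut W E κ) : E ⊆ W := by
  intro x hx
  apply h.sub
  apply subset_tsupport
  have h3 : ∀ᶠ y in 𝓝 x, κ y = 1 := (eventually_nhdsSet_iff_forall.mp h.one) x hx
  rw [Function.mem_support, h3.self_of_nhds]
  exact one_ne_zero

/-- `CT (g * dzb κ)` is holomorphic off the support of `dzb κ` -/
theorem s2_CT {W E : Set ℂ} {κ g : ℂ → ℂ} (hW : IsOpen W) (hE : IsCompact E) (h : Cut W E κ)
    (hg : DifferentiableOn ℂ g (W \ E)) {z : ℂ} (hz : z ∉ tsupport (dzb κ)) :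
    DifferentiableAt ℂ (CT fun ζ => g ζ * dzb κ ζ) z := by
  obtain ⟨h1, h2, h3⟩ := s1_cont hW hE h hg.continuousOn
  exact (s1_diff h1 h2).differentiableAt ((isClosed_tsupport _).isOpen_compl.mem_nhds fun h => hz (h3 h))

theorem s2_ts {κ : ℂ → ℂ} : tsupport (dzb κ) ⊆ tsupport κ := by
  refine closure_minimal (fun w hw => ?_) (isClosed_tsupport κ)
  by_contra hcon
  exact hw (Pool.Agent.Lib.H27.dzb_eq_zero_of_notMem hcon)

/-- PROOF.  Let `z ∈ W`.  If `z ∈ E`: `κ = 1` near `z`, so `intPart κ g = CT (g * dzb κ)` near `z`, which is holomorphic near `z`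
because `z ∉ tsupport (dzb κ)` (`s1_diff`).  If `z ∉ E`: take a cut-off function `κ'` for `(W \ closedBall z r, E)`, also a cut-off
function for `(W, E)`; by `s2_indep`, `intPart κ g = intPart κ' g`, which is `CT (g * dzb κ') + g` near `z`. -/
theorem s2_int {W E : Set ℂ} {κ g : ℂ → ℂ} (hW : IsOpen W) (hE : IsCompact E) (h : Cut W E κ)
    (hg : DifferentiableOn ℂ g (W \ E)) : DifferentiableOn ℂ (intPart κ g) W := by
  intro z hz
  apply DifferentiableAt.differentiableWithinAt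
  by_cases hzE : z ∈ E
  · have h3 : ∀ᶠ x in 𝓝 z, κ x = 1 := (eventually_nhdsSet_iff_forall.mp h.one) z hzE
    have h4 : intPart κ g =ᶠ[𝓝 z] CT fun ζ => g ζ * dzb κ ζ := by
      filter_upwards [h3] with x hx
      unfold intPart
      rw [hx]
      ring
    exact (s2_CT hW hE h hg (fun hc => ((s1_supp h).2 hc).2 hzE)).congr_of_eventuallyEq h4
  · obtain ⟨κ', hκ', hzκ⟩ := s2_small hW hE (s2_sub h) hzE
    have h4 : intPart κ g =ᶠ[𝓝 z] fun x => CT (fun ζ => g ζ * dzb κ' ζ) x + g x := by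
      filter_upwards [notMem_tsupport_iff_eventuallyEq.mp hzκ] with x hx
      have h5 := s2_indep hW hE h hκ' hg x
      rw [hx, Pi.zero_apply] at h5
      unfold intPart
      linear_combination -h5
    exact ((s2_CT hW hE hκ' hg (fun hc => hzκ (s2_ts hc))).add (s2_gd hW hE hg ⟨hz, hzE⟩).1).congr_of_eventuallyEq h4


/-- PROOF.  Let `z ∉ E`.  If `z ∈ W`, use `κ'` as in `s2_int`: `extPart κ g = extPart κ' g = - CT (g * dzb κ')` near `z`.  If
`z ∉ W`: `z ∉ tsupport κ`, so `extPart κ g = - CT (g * dzb κ)` near `z`. -/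
theorem s2_ext {W E : Set ℂ} {κ g : ℂ → ℂ} (hW : IsOpen W) (hE : IsCompact E) (h : Cut W E κ)
    (hg : DifferentiableOn ℂ g (W \ E)) : DifferentiableOn ℂ (extPart κ g) Eᶜ := by
  intro z hzE
  apply DifferentiableAt.differentiableWithinAt
  have hEW := s2_sub h
  obtain ⟨κ', hκ', hzκ⟩ := s2_small hW hE hEW hzE
  have h4 : extPart κ g =ᶠ[𝓝 z] fun x => - CT (fun ζ => g ζ * dzb κ' ζ) x := by
    filter_upwards [notMem_tsupport_iff_eventuallyEq.mp hzκ] with x hx
    have h5 := s2_indep hW hE h hκ' hg x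
    rw [hx, Pi.zero_apply] at h5
    unfold extPart
    linear_combination h5
  exact (s2_CT hW hE hκ' hg (fun hc => hzκ (s2_ts hc))).neg.congr_of_eventuallyEq h4


/-- PROOF.  `κ` has compact support; `s1_zero`. -/
theorem s2_zero {W E : Set ℂ} {κ g : ℂ → ℂ} (hW : IsOpen W) (hE : IsCompact E) (h : Cut W E κ)
    (hg : DifferentiableOn ℂ g (W \ E)) : Tendsto (extPart κ g) (cocompact ℂ) (𝓝 0) := by
  obtain ⟨h1, h2, _⟩ := s1_cont hW hE h hg.continuousOn
  have h3 := (s1_zero h1 h2).neg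
  rw [neg_zero] at h3
  refine h3.congr' ?_
  have h4 : ∀ᶠ z in cocompact ℂ, z ∉ tsupport κ := by
    have h5 : (tsupport κ)ᶜ ∈ cocompact ℂ := h.cs.isCompact.compl_mem_cocompact
    exact h5
  filter_upwards [h4] with z hz
  unfold extPart
  rw [image_eq_zero_of_notMem_tsupport hz]
  ring


end H51S
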