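import Pool.Agent.Lib.H51S.S1

/-!
# H51S, chunk S3: transport to the image plane
-/

set_option autoImplicit false

namespace H51S

open Set Metric Topology Filter MeasureTheory
open Pool.Agent.Lib.H27 (dzb)

theorem s3_open {W E : Set ℂ} {f : ℂ → ℂ} (h : Hm W E f) {V : Set ℂ} (hV : IsOpen V) (hVW : V ⊆ W) :
    IsOpen (f '' V) := H51R.a1_open hV (h.c.mono hVW) (h.i.mono hVW)

theorem s3_li {W E : Set ℂ} {f : ℂ → ℂ} (h : Hm W E f) {z : ℂ} (hz : z ∈ W) :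
    Function.invFunOn f W (f z) = z := H51R.b3_inv_apply h.i hz

theorem s3_ca {W E : Set ℂ} {f : ℂ → ℂ} (h : Hm W E f) {z : ℂ} (hz : z ∈ W) :
    ContinuousAt (Function.invFunOn f W) (f z) := by
  rw [Metric.continuousAt_iff']
  intro ε hε
  rw [s3_li h hz]
  have ho : IsOpen (f '' (W ∩ ball z ε)) := s3_open h (h.o.inter isOpen_ball) inter_subset_left
  filter_upwards [ho.mem_nhds (mem_image_of_mem f ⟨hz, mem_ball_self hε⟩)]
  rintro _ ⟨v, ⟨hvU, hvb⟩, rfl⟩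
  rw [s3_li h hvU]
  exact hvb

theorem s3_da {W E : Set ℂ} {f : ℂ → ℂ} (h : Hm W E f) {z : ℂ} (hz : z ∈ W \ E) : DifferentiableAt ℂ f z :=
  h.d.differentiableAt ((h.o.sdiff h.k.isClosed).mem_nhds hz)

theorem s3_hd {W E : Set ℂ} {f : ℂ → ℂ} (h : Hm W E f) {z : ℂ} (hz : z ∈ W \ E) :
    HasDerivAt (Function.invFunOn f W) (deriv f z)⁻¹ (f z) := by
  have ho : IsOpen (f '' W) := s3_open h h.o Subset.rfl
  have h0 : deriv f z ≠ 0 := H51R.b3_deriv_ne (h.o.sdiff h.k.isClosed) h.d (h.i.mono sdiff_subset) hz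
  refine HasDerivAt.of_local_left_inverse (f := f) (s3_ca h hz.1) ?_ h0 ?_
  · rw [s3_li h hz.1]
    exact (s3_da h hz).hasDerivAt
  · filter_upwards [ho.mem_nhds (mem_image_of_mem f hz.1)]
    rintro _ ⟨v, hv, rfl⟩
    rw [s3_li h hv]

theorem s3_push {W E : Set ℂ} {f : ℂ → ℂ} (h : Hm W E f) (κ : ℂ → ℂ) {z : ℂ} (hz : z ∈ W) :
    push W f κ (f z) = κ z := by
  unfold push
  rw [if_pos (mem_image_of_mem f hz), s3_li h hz]

/-- `push κ` vanishes off `f '' tsupport κ` -/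
theorem s3_off {W E : Set ℂ} {f κ : ℂ → ℂ} (h : Hm W E f) {ω : ℂ} (hω : ω ∉ f '' tsupport κ) : push W f κ ω = 0 := by
  by_cases hω' : ω ∈ f '' W
  · obtain ⟨z, hz, rfl⟩ := hω'
    rw [s3_push h κ hz]
    by_contra hne
    exact hω ⟨z, subset_tsupport κ hne, rfl⟩
  · unfold push
    rw [if_neg hω']

theorem s3_cl {W E : Set ℂ} {f κ : ℂ → ℂ} (h : Hm W E f) (hκ : Cut W E κ) : IsCompact (f '' tsupport κ) :=
  hκ.cs.isCompact.image_of_continuousOn (h.c.mono hκ.sub)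

theorem s3_one {W E : Set ℂ} {f κ : ℂ → ℂ} (h : Hm W E f) (hκ : Cut W E κ) {ω : ℂ} (hω : ω ∈ f '' E) :
    ∀ᶠ y in 𝓝 ω, push W f κ y = 1 := by
  obtain ⟨z, hz, rfl⟩ := hω
  have h1 : ∀ᶠ x in 𝓝 z, κ x = 1 := (eventually_nhdsSet_iff_forall.mp hκ.one) z hz
  obtain ⟨V, hV, hVo, hzV⟩ := _root_.eventually_nhds_iff.1 (h1.and (h.o.eventually_mem (h.sub hz)))
  have hVW : V ⊆ W := fun x hx => (hV x hx).2
  filter_upwards [(s3_open h hVo hVW).mem_nhds (mem_image_of_mem f hzV)]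
  rintro _ ⟨v, hv, rfl⟩
  rw [s3_push h κ (hVW hv)]
  exact (hV v hv).1

theorem s3_near {W E : Set ℂ} {f : ℂ → ℂ} (h : Hm W E f) (κ : ℂ → ℂ) {z : ℂ} (hz : z ∈ W) :
    push W f κ =ᶠ[𝓝 (f z)] fun y => κ (Function.invFunOn f W y) := by
  have ho : IsOpen (f '' W) := s3_open h h.o Subset.rfl
  filter_upwards [ho.mem_nhds (mem_image_of_mem f hz)] with y hy
  unfold push
  rw [if_pos hy]

theorem s3_inv_cda {W E : Set ℂ} {f : ℂ → ℂ} (h : Hm W E f) {z : ℂ} (hz : z ∈ W \ E) :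
    ContDiffAt ℝ 1 (Function.invFunOn f W) (f z) := by
  have ho' : IsOpen (W \ E) := h.o.sdiff h.k.isClosed
  have ho : IsOpen (f '' (W \ E)) := s3_open h ho' sdiff_subset
  have h1 : DifferentiableOn ℂ (Function.invFunOn f W) (f '' (W \ E)) := by
    rintro _ ⟨x, hx, rfl⟩
    exact (s3_hd h hx).differentiableAt.differentiableWithinAt
  exact ((h1.contDiffOn ho).contDiffAt (ho.mem_nhds (mem_image_of_mem f hz))).restrict_scalars ℝ

theorem s3_dzb_comp {F f : ℂ → ℂ} {ξ : ℂ} (hF : DifferentiableAt ℝ F (f ξ)) (hf : DifferentiableAt ℂ f ξ) :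
    dzb (fun z => F (f z)) ξ = dzb F (f ξ) * starRingEnd ℂ (deriv f ξ) := by
  have h1 : HasFDerivAt f (deriv f ξ • (1 : ℂ →L[ℝ] ℂ)) ξ := hf.hasDerivAt.complexToReal_fderiv
  have h2 := (hF.hasFDerivAt.comp ξ h1).fderiv
  have h3 : ∀ w : ℂ, fderiv ℝ F (f ξ) w = w.re * fderiv ℝ F (f ξ) 1 + w.im * fderiv ℝ F (f ξ) Complex.I := by
    intro w
    have e : w = w.re • (1 : ℂ) + w.im • Complex.I := by
      rw [Complex.real_smul, Complex.real_smul, mul_one, Complex.re_add_im]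
    conv_lhs => rw [e]
    rw [map_add, map_smul, map_smul, Complex.real_smul, Complex.real_smul]
  have h4 : fderiv ℝ (fun z => F (f z)) ξ = (fderiv ℝ F (f ξ)).comp (deriv f ξ • (1 : ℂ →L[ℝ] ℂ)) := h2
  unfold Pool.Agent.Lib.H27.dzb
  rw [h4]
  have e1 : ((fderiv ℝ F (f ξ)).comp (deriv f ξ • (1 : ℂ →L[ℝ] ℂ))) 1 = fderiv ℝ F (f ξ) (deriv f ξ) := by
    simp
  have e2 : ((fderiv ℝ F (f ξ)).comp (deriv f ξ • (1 : ℂ →L[ℝ] ℂ))) Complex.I = fderiv ℝ F (f ξ) (deriv f ξ * Complex.I) := by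
    simp
  rw [e1, e2, h3 (deriv f ξ), h3 (deriv f ξ * Complex.I)]
  have e3 : starRingEnd ℂ (deriv f ξ) = (deriv f ξ).re - (deriv f ξ).im * Complex.I := by
    apply Complex.ext <;> simp
  have e4 : (deriv f ξ * Complex.I).re = -(deriv f ξ).im := by simp
  have e5 : (deriv f ξ * Complex.I).im = (deriv f ξ).re := by simp
  rw [e3, e4, e5]
  push_cast
  linear_combination (1 / 2 * ((deriv f ξ).im : ℂ) * fderiv ℝ F (f ξ) Complex.I) * Complex.I_mul_I

/-- PROOF.  `f '' W` is open and `f` maps open subsets of `W` to open sets (`H51R.a1_open`), so the inverse is continuous;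
it is holomorphic off `f '' E` by `H51R.b3_inverse` (or `b3_hd`, `b3_deriv_ne`) applied on the open set `W \ E`. -/
theorem s3_inv {W E : Set ℂ} {f : ℂ → ℂ} (h : Hm W E f) :
    Hm (f '' W) (f '' E) (Function.invFunOn f W) ∧ (∀ z ∈ W, Function.invFunOn f W (f z) = z) ∧
      Function.invFunOn f W '' (f '' W) = W ∧ Function.invFunOn f W '' (f '' E) = E := by
  refine ⟨⟨s3_open h h.o Subset.rfl, h.k.image_of_continuousOn (h.c.mono h.sub), image_mono h.sub, ?_, ?_, ?_⟩,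
    fun z hz => s3_li h hz, ?_, ?_⟩
  · rintro _ ⟨z, hz, rfl⟩
    exact (s3_ca h hz).continuousWithinAt
  · rintro _ ⟨z, hz, rfl⟩ _ ⟨w, hw, rfl⟩ hzw
    rw [s3_li h hz, s3_li h hw] at hzw
    rw [hzw]
  · rintro _ ⟨⟨z, hz, rfl⟩, hzE⟩
    exact (s3_hd h ⟨hz, fun hE => hzE ⟨z, hE, rfl⟩⟩).differentiableAt.differentiableWithinAt
  · ext z
    constructor
    · rintro ⟨_, ⟨w, hw, rfl⟩, rfl⟩
      rw [s3_li h hw]
      exact hw
    · intro hz
      exact ⟨f z, ⟨z, hz, rfl⟩, s3_li h hz⟩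
  · ext z
    constructor
    · rintro ⟨_, ⟨w, hw, rfl⟩, rfl⟩
      rw [s3_li h (h.sub hw)]
      exact hw
    · intro hz
      exact ⟨f z, ⟨z, hz, rfl⟩, s3_li h (h.sub hz)⟩


theorem s3_mono {W W' E : Set ℂ} {f : ℂ → ℂ} (h : Hm W E f) (hW : IsOpen W') (h1 : W' ⊆ W)
    (h2 : E ⊆ W') : Hm W' E f where
  o := hW
  k := h.k
  sub := h2
  c := h.c.mono h1
  i := h.i.mono h1
  d := h.d.mono (diff_subset_diff_left h1)

/-- PROOF.  Near a point of `f '' E` (in the open set `f '' interior {κ = 1}`) `push W f κ = 1`; near a point of `f '' (W \ E)` it is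
`κ ∘ f⁻¹` with `f⁻¹` holomorphic, so `C¹`; near a point off the compact set `f '' tsupport κ` it is `0`. -/
theorem s3_cut {W E : Set ℂ} {f κ : ℂ → ℂ} (h : Hm W E f) (hκ : Cut W E κ) :
    Cut (f '' W) (f '' E) (push W f κ) := by
  have hcl := s3_cl h hκ
  have hsupp : tsupport (push W f κ) ⊆ f '' tsupport κ := by
    refine closure_minimal (fun w hw => ?_) hcl.isClosed
    by_contra hcon
    exact hw (s3_off h hcon)
  refine ⟨?_, hcl.of_isClosed_subset (isClosed_tsupport _) hsupp, hsupp.trans (image_mono hκ.sub), ?_⟩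
  · rw [contDiff_iff_contDiffAt]
    intro ω
    by_cases hω : ω ∈ f '' W
    · by_cases hωE : ω ∈ f '' E
      · exact contDiffAt_const.congr_of_eventuallyEq (s3_one h hκ hωE)
      · obtain ⟨z, hz, rfl⟩ := hω
        have hzE : z ∉ E := fun hE => hωE ⟨z, hE, rfl⟩
        refine ContDiffAt.congr_of_eventuallyEq ?_ (s3_near h κ hz)
        exact hκ.smooth.contDiffAt.comp _ (s3_inv_cda h ⟨hz, hzE⟩)
    · have h1 : ω ∉ f '' tsupport κ := fun hc => hω (image_mono hκ.sub hc)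
      have h2 : push W f κ =ᶠ[𝓝 ω] fun _ => 0 := by
        filter_upwards [hcl.isClosed.isOpen_compl.mem_nhds h1] with y hy
        exact s3_off h hy
      exact contDiffAt_const.congr_of_eventuallyEq h2
  · exact eventually_nhdsSet_iff_forall.mpr fun ω hω => s3_one h hκ hω


/-- PROOF.  Chain rule: `κ = push W f κ ∘ f` near `ξ`, `f` holomorphic at `ξ`. -/
theorem s3_dzb {W E : Set ℂ} {f κ : ℂ → ℂ} (h : Hm W E f) (hκ : Cut W E κ) {ξ : ℂ}
    (hξ : ξ ∈ W \ E) : dzb (push W f κ) (f ξ) * starRingEnd ℂ (deriv f ξ) = dzb κ ξ := by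
  have h1 : DifferentiableAt ℝ (push W f κ) (f ξ) := ((s3_cut h hκ).smooth.differentiable (by norm_num)) _
  rw [← s3_dzb_comp h1 (s3_da h hξ)]
  apply Pool.Agent.Lib.H27.dzb_congr
  filter_upwards [h.o.mem_nhds hξ.1] with z hz
  exact s3_push h κ hz


theorem s3_det (c : ℂ) : (c • (1 : ℂ →L[ℝ] ℂ)).det = ‖c‖ ^ 2 := by
  have h1 : ((c • (1 : ℂ →L[ℝ] ℂ) : ℂ →L[ℝ] ℂ) : ℂ →ₗ[ℝ] ℂ) = Algebra.lmul ℝ ℂ c := by
    ext
    simp
  rw [ContinuousLinearMap.det, h1, ← Algebra.norm_apply, Algebra.norm_complex_apply, Complex.normSq_eq_norm_sq]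

theorem s3_cov {S : Set ℂ} (hS : MeasurableSet S) {f f' : ℂ → ℂ}
    (hf : ∀ z ∈ S, HasDerivAt f (f' z) z) (hinj : InjOn f S) (F : ℂ → ℂ) :
    ∫ z in f '' S, F z = ∫ z in S, ((‖f' z‖ ^ 2 : ℝ) : ℂ) * F (f z) := by
  rw [integral_image_eq_integral_abs_det_fderiv_smul volume hS
    (fun z hz => (hf z hz).complexToReal_fderiv.hasFDerivWithinAt) hinj F]
  refine setIntegral_congr_fun hS fun z _ => ?_
  simp only [s3_det]
  rw [Complex.real_smul, abs_of_nonneg (by positivity)]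

/-- PROOF.  The integrand `(ω - y)⁻¹ * (g y * dzb (push W f κ) y)` of the left side vanishes off `f '' tsupport (dzb κ)` and
near `f '' E`, so the integral is over `f '' (W \ E)`; change of variables `y = f ξ`
(`integral_image_eq_integral_abs_det_fderiv_smul`; the Jacobian is `‖deriv f ξ‖ ^ 2`) and `s3_dzb`:
`dzb (push W f κ) (f ξ) * ‖deriv f ξ‖ ^ 2 = dzb κ ξ * deriv f ξ`. -/
theorem s3_CT {W E : Set ℂ} {f κ : ℂ → ℂ} (h : Hm W E f) (hκ : Cut W E κ) (g : ℂ → ℂ) (ω : ℂ) :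
    CT (fun y => g y * dzb (push W f κ) y) ω = qq f κ (fun ξ => g (f ξ)) ω := by
  have ho' : IsOpen (W \ E) := h.o.sdiff h.k.isClosed
  have hm : MeasurableSet (W \ E) := ho'.measurableSet
  have hC := s3_cut h hκ
  have hsub : tsupport (dzb (push W f κ)) ⊆ f '' (W \ E) := by
    refine (s1_supp hC).2.trans ?_
    rintro _ ⟨⟨z, hz, rfl⟩, hzE⟩
    exact ⟨z, ⟨hz, fun hE => hzE ⟨z, hE, rfl⟩⟩, rfl⟩
  have h1 : ∫ y, (ω - y)⁻¹ * (g y * dzb (push W f κ) y) =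
      ∫ y in f '' (W \ E), (ω - y)⁻¹ * (g y * dzb (push W f κ) y) := by
    refine (setIntegral_eq_integral_of_forall_compl_eq_zero fun y hy => ?_).symm
    rw [image_eq_zero_of_notMem_tsupport fun hc => hy (hsub hc), mul_zero, mul_zero]
  have h2 : ∫ ξ, (ω - f ξ)⁻¹ * (g (f ξ) * (dzb κ ξ * deriv f ξ)) =
      ∫ ξ in W \ E, (ω - f ξ)⁻¹ * (g (f ξ) * (dzb κ ξ * deriv f ξ)) := by
    refine (setIntegral_eq_integral_of_forall_compl_eq_zero fun y hy => ?_).symm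
    rw [image_eq_zero_of_notMem_tsupport fun hc => hy ((s1_supp hκ).2 hc), zero_mul, mul_zero, mul_zero]
  have hd : ∀ z ∈ W \ E, HasDerivAt f (deriv f z) z := fun z hz => (s3_da h hz).hasDerivAt
  unfold CT qq
  rw [h1, h2, s3_cov hm hd (h.i.mono sdiff_subset)]
  congr 1
  refine setIntegral_congr_fun hm fun ξ hξ => ?_
  have h3 := s3_dzb h hκ hξ
  have h4 : ((‖deriv f ξ‖ ^ 2 : ℝ) : ℂ) = starRingEnd ℂ (deriv f ξ) * deriv f ξ := by
    rw [mul_comm, Complex.mul_conj, Complex.normSq_eq_norm_sq]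
  rw [h4, ← h3]
  ring


end H51S
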