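import Mathlib

/-!
# H51S, chunk S4: integral operators with continuous kernel are compact
-/

set_option autoImplicit false

namespace H51S

open Set Metric Topology Filter MeasureTheory

/-- PROOF.  `(T w) z = ∫ ξ in A, w' ξ * k z ξ`, `w'` the extension of `w` by `0`; continuity in `z` by uniform continuity of `k` on
the compact set `B ×ˢ A`; `‖T w‖ ≤ volume A * sup |k| * ‖w‖`.  The image of the unit ball is bounded and uniformly
equicontinuous, so its closure is compact by Arzela-Ascoli (`BoundedContinuousFunction.arzela_ascoli` and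
`ContinuousMap.equivBoundedOfCompact`). -/
theorem s4_op {A B : Set ℂ} [CompactSpace A] [CompactSpace B] {k : ℂ → ℂ → ℂ}
    (hk : ContinuousOn (fun p : ℂ × ℂ => k p.1 p.2) (B ×ˢ A)) :
    ∃ T : C(A, ℂ) →L[ℂ] C(B, ℂ), IsCompactOperator T ∧
      ∀ (w : C(A, ℂ)) (w' : ℂ → ℂ), (∀ ξ : A, w' ξ = w ξ) →
        ∀ z : B, T w z = ∫ ξ in A, w' ξ * k z ξ := by
  have hAc : IsCompact A := isCompact_iff_compactSpace.2 inferInstance
  have hAm : MeasurableSet A := hAc.isClosed.measurableSet
  set ν : Measure A := Measure.comap Subtype.val (volume : Measure ℂ) with hν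
  have hνf : IsFiniteMeasure ν := by
    refine ⟨?_⟩
    have h1 : ν univ = volume A := by
      rw [hν, comap_subtype_coe_apply hAm]
      simp
    rw [h1]
    exact hAc.measure_lt_top
  have hint : ∀ f : C(A, ℂ), Integrable f ν := fun f =>
    f.continuous.integrable_of_hasCompactSupport (HasCompactSupport.of_compactSpace _)
  let L : C(A, ℂ) →L[ℂ] ℂ := LinearMap.mkContinuous
    { toFun := fun f => ∫ ξ, f ξ ∂ν
      map_add' := fun f g => by
        simp only [ContinuousMap.add_apply]
        exact integral_add (hint f) (hint g)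
      map_smul' := fun c f => by
        simp only [ContinuousMap.smul_apply, smul_eq_mul, RingHom.id_apply]
        exact integral_const_mul c _ } (ν.real univ) (fun f => by
        change ‖∫ ξ, f ξ ∂ν‖ ≤ _
        refine (norm_integral_le_of_norm_le_const (C := ‖f‖) (Eventually.of_forall fun ξ => f.norm_coe_le_norm ξ)).trans
          (le_of_eq (mul_comm _ _)))
  have hL : ∀ f : C(A, ℂ), L f = ∫ ξ, f ξ ∂ν := fun f => rfl
  let K : C(B × A, ℂ) := ⟨fun p => k p.1 p.2, by
    have h1 : Continuous fun p : B × A => (((p.1 : ℂ), (p.2 : ℂ)) : ℂ × ℂ) := by fun_prop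
    exact hk.comp_continuous h1 (fun p => ⟨p.1.2, p.2.2⟩)⟩
  let κ : C(B, C(A, ℂ)) := K.curry
  have hκ : ∀ z ξ, κ z ξ = k z ξ := fun z ξ => rfl
  let T : C(A, ℂ) →L[ℂ] C(B, ℂ) := LinearMap.mkContinuous
    { toFun := fun w => ⟨fun z => L (w * κ z), L.continuous.comp (continuous_const.mul κ.continuous)⟩
      map_add' := fun f g => by
        ext z
        simp only [ContinuousMap.coe_mk, ContinuousMap.add_apply]
        rw [add_mul, map_add]
      map_smul' := fun c f => by
        ext z
        simp only [ContinuousMap.coe_mk, ContinuousMap.smul_apply, RingHom.id_apply]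
        rw [smul_mul_assoc, map_smul] } (‖L‖ * ‖κ‖) (fun w => by
        rw [ContinuousMap.norm_le _ (by positivity)]
        intro z
        change ‖L (w * κ z)‖ ≤ _
        refine (L.le_opNorm _).trans ?_
        rw [mul_assoc]
        refine mul_le_mul_of_nonneg_left ?_ (norm_nonneg _)
        refine (norm_mul_le _ _).trans ?_
        rw [mul_comm]
        exact mul_le_mul_of_nonneg_right (κ.norm_coe_le_norm z) (norm_nonneg _))
  have hT : ∀ w z, T w z = L (w * κ z) := fun w z => rfl
  refine ⟨T, ?_, ?_⟩
  · set C : ℝ := ‖L‖ * ‖κ‖ with hC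
    set S : Set (BoundedContinuousFunction B ℂ) :=
      {v | (∀ z, ‖v z‖ ≤ C) ∧ ∀ z z', ‖v z - v z'‖ ≤ ‖L‖ * ‖κ z - κ z'‖} with hS
    have hev : ∀ z : B, Continuous (fun v : BoundedContinuousFunction B ℂ => v z) :=
      fun z => continuous_eval_const z
    have hcl : IsClosed S := by
      have h1 : S = (⋂ z, {v : BoundedContinuousFunction B ℂ | ‖v z‖ ≤ C}) ∩
          ⋂ z, ⋂ z', {v : BoundedContinuousFunction B ℂ | ‖v z - v z'‖ ≤ ‖L‖ * ‖κ z - κ z'‖} := by
        ext v
        simp [hS]
      rw [h1]
      refine IsClosed.inter ?_ ?_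
      · exact isClosed_iInter fun z => isClosed_le (hev z).norm continuous_const
      · exact isClosed_iInter fun z => isClosed_iInter fun z' => isClosed_le ((hev z).sub (hev z')).norm continuous_const
    have hcomp : IsCompact S := by
      refine BoundedContinuousFunction.arzela_ascoli₂ (closedBall (0 : ℂ) C) (isCompact_closedBall _ _) S hcl ?_ ?_
      · intro f x hf
        rw [mem_closedBall_zero_iff]
        exact hf.1 x
      · intro x₀
        refine Metric.equicontinuousAt_of_continuity_modulus (fun x => ‖L‖ * ‖κ x₀ - κ x‖) ?_ _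
          (Eventually.of_forall fun x f => ?_)
        · have h1 : Continuous fun x => ‖L‖ * ‖κ x₀ - κ x‖ := by fun_prop
          refine h1.tendsto' _ _ ?_
          simp
        · rw [dist_eq_norm]
          exact f.2.2 x₀ x
    refine ⟨(ContinuousMap.isometryEquivBoundedOfCompact B ℂ).symm '' S,
      hcomp.image (ContinuousMap.isometryEquivBoundedOfCompact B ℂ).symm.continuous, ?_⟩
    refine Filter.mem_of_superset (Metric.ball_mem_nhds (0 : C(A, ℂ)) one_pos) fun w hw => ?_
    rw [mem_ball_zero_iff] at hw
    refine ⟨ContinuousMap.isometryEquivBoundedOfCompact B ℂ (T w), ⟨fun z => ?_, fun z z' => ?_⟩,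
      (ContinuousMap.isometryEquivBoundedOfCompact B ℂ).symm_apply_apply (T w)⟩
    · change ‖L (w * κ z)‖ ≤ C
      refine (L.le_opNorm _).trans ?_
      rw [hC]
      refine mul_le_mul_of_nonneg_left ?_ (norm_nonneg _)
      refine (norm_mul_le _ _).trans ?_
      have h1 := κ.norm_coe_le_norm z
      nlinarith [norm_nonneg w, norm_nonneg (κ z)]
    · change ‖L (w * κ z) - L (w * κ z')‖ ≤ _
      rw [← map_sub, ← mul_sub]
      refine (L.le_opNorm _).trans ?_
      refine mul_le_mul_of_nonneg_left ?_ (norm_nonneg _)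
      refine (norm_mul_le _ _).trans ?_
      exact mul_le_of_le_one_left (norm_nonneg _) hw.le
  · intro w w' hw z
    rw [hT, hL, ← integral_subtype_comap hAm]
    refine integral_congr_ae (Eventually.of_forall fun ξ => ?_)
    change w ξ * κ z ξ = w' ξ * k z ξ
    rw [hw ξ, hκ]


end H51S
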