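import Pool.Agent.Lib.H51S.S3

/-!
# H51S, chunk S5: the maximum principle on the sewn sphere
-/

set_option autoImplicit false

namespace H51S

open Set Metric Topology Filter MeasureTheory

/-- `glue` is continuous.  PROOF.  Near a point of `Eᶜ` it is `u` (on `W \ E` the two formulas agree), near a point of `W` it
is `v ∘ f`. -/
theorem s5_cont {W E : Set ℂ} {f u v : ℂ → ℂ} (h : Hm W E f) (hu : DifferentiableOn ℂ u Eᶜ)
    (hv : DifferentiableOn ℂ v (f '' W)) (huv : ∀ z ∈ W \ E, u z = v (f z)) :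
    Continuous (glue W f u v) ∧ (∀ z ∈ Eᶜ, glue W f u v z = u z) ∧
      ∀ z ∈ W, glue W f u v z = v (f z) := by
  classical
  have e1 : ∀ z ∈ W, glue W f u v z = v (f z) := by
    intro z hz
    unfold glue
    rw [if_pos hz]
  have e2 : ∀ z ∈ Eᶜ, glue W f u v z = u z := by
    intro z hz
    unfold glue
    by_cases hzW : z ∈ W
    · rw [if_pos hzW]
      exact (huv z ⟨hzW, hz⟩).symm
    · rw [if_neg hzW]
  refine ⟨continuous_iff_continuousAt.2 fun z => ?_, e2, e1⟩
  by_cases hz : z ∈ W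
  · have h1 : ContinuousAt (fun z => v (f z)) z := by
      have h2 : ContinuousAt f z := h.c.continuousAt (h.o.mem_nhds hz)
      have h3 : ContinuousAt v (f z) := (hv.differentiableAt ((s3_open h h.o Subset.rfl).mem_nhds (mem_image_of_mem f hz))).continuousAt
      exact ContinuousAt.comp (g := v) (f := f) h3 h2
    refine h1.congr ?_
    filter_upwards [h.o.mem_nhds hz] with x hx
    exact (e1 x hx).symm
  · have hzE : z ∈ Eᶜ := fun hc => hz (h.sub hc)
    have hEo : IsOpen Eᶜ := h.k.isClosed.isOpen_compl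
    have h1 : ContinuousAt u z := (hu.differentiableAt (hEo.mem_nhds hzE)).continuousAt
    refine h1.congr ?_
    filter_upwards [hEo.mem_nhds hzE] with x hx
    exact (e2 x hx).symm


/-- PROOF.  `Φ = glue W f u v`.  If `Φ` is not identically `0`, `‖Φ‖` attains its maximum `M > 0` (`Φ → 0` at infinity).  The set
`Z = {z | ‖Φ z‖ = M}` is closed.  It is open: at `a ∈ Z`, `a ∉ E`, `‖u‖` has a local maximum at `a`, so `u` is constant near `a`
(`Complex.eventually_eq_of_isLocalMax_norm`); at `a ∈ Z ∩ W`, `‖v‖` has a local maximum at `f a` (`f` is an open map on `W`,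
`H51R.a1_open`), so `v` is constant near `f a` and `Φ = v ∘ f` near `a`.  So `Z` is the plane, which contradicts `Φ → 0`. -/
theorem s5_zero {W E : Set ℂ} {f u v : ℂ → ℂ} (h : Hm W E f) (hu : DifferentiableOn ℂ u Eᶜ)
    (hv : DifferentiableOn ℂ v (f '' W)) (huv : ∀ z ∈ W \ E, u z = v (f z))
    (h0 : Tendsto u (cocompact ℂ) (𝓝 0)) : (∀ z ∈ Eᶜ, u z = 0) ∧ ∀ z ∈ W, v (f z) = 0 := by
  obtain ⟨hc, e2, e1⟩ := s5_cont h hu hv huv
  set Φ := glue W f u v with hΦ
  have hEo : IsOpen Eᶜ := h.k.isClosed.isOpen_compl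
  have hlim : Tendsto Φ (cocompact ℂ) (𝓝 0) := by
    refine h0.congr' ?_
    have h1 : Eᶜ ∈ cocompact ℂ := h.k.compl_mem_cocompact
    filter_upwards [h1] with z hz
    exact (e2 z hz).symm
  have key : ∀ z, Φ z = 0 := by
    by_contra hcon
    push Not at hcon
    obtain ⟨z₁, hz₁⟩ := hcon
    -- the maximum
    obtain ⟨a, ha⟩ : ∃ a, ∀ z, ‖Φ z‖ ≤ ‖Φ a‖ := by
      have h1 : ∀ᶠ z in cocompact ℂ, ‖Φ z‖ ≤ ‖Φ z₁‖ := by
        have h2 : Tendsto (fun z => ‖Φ z‖) (cocompact ℂ) (𝓝 0) := by simpa using hlim.norm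
        exact h2.eventually_le_const (norm_pos_iff.2 hz₁)
      exact hc.norm.exists_forall_ge' z₁ h1
    have hM : 0 < ‖Φ a‖ := lt_of_lt_of_le (norm_pos_iff.2 hz₁) (ha z₁)
    have hconst : ∀ b, ‖Φ b‖ = ‖Φ a‖ → Φ =ᶠ[𝓝 b] fun _ => Φ b := by
      intro b hb
      by_cases hbW : b ∈ W
      · have ho := s3_open h h.o Subset.rfl
        have h1 : IsLocalMax (norm ∘ v) (f b) := by
          filter_upwards [ho.mem_nhds (mem_image_of_mem f hbW)]
          rintro _ ⟨x, hx, rfl⟩
          show ‖v (f x)‖ ≤ ‖v (f b)‖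
          rw [← e1 x hx, ← e1 b hbW, hb]
          exact ha x
        have h2 : ∀ᶠ y in 𝓝 (f b), DifferentiableAt ℂ v y := by
          filter_upwards [ho.mem_nhds (mem_image_of_mem f hbW)] with y hy
          exact hv.differentiableAt (ho.mem_nhds hy)
        have h3 := Complex.eventually_eq_of_isLocalMax_norm h2 h1
        have h4 : ContinuousAt f b := h.c.continuousAt (h.o.mem_nhds hbW)
        filter_upwards [h4.eventually h3, h.o.mem_nhds hbW] with x hx hxW
        rw [e1 x hxW, e1 b hbW, hx]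
      · have hbE : b ∈ Eᶜ := fun hc => hbW (h.sub hc)
        have h1 : IsLocalMax (norm ∘ u) b := by
          filter_upwards [hEo.mem_nhds hbE] with x hx
          show ‖u x‖ ≤ ‖u b‖
          rw [← e2 x hx, ← e2 b hbE, hb]
          exact ha x
        have h2 : ∀ᶠ y in 𝓝 b, DifferentiableAt ℂ u y := by
          filter_upwards [hEo.mem_nhds hbE] with y hy
          exact hu.differentiableAt (hEo.mem_nhds hy)
        have h3 := Complex.eventually_eq_of_isLocalMax_norm h2 h1
        filter_upwards [h3, hEo.mem_nhds hbE] with x hx hxE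
        rw [e2 x hxE, e2 b hbE, hx]
    have hZc : IsClosed {z | ‖Φ z‖ = ‖Φ a‖} := isClosed_eq hc.norm continuous_const
    have hZo : IsOpen {z | ‖Φ z‖ = ‖Φ a‖} := by
      rw [isOpen_iff_mem_nhds]
      intro b hb
      filter_upwards [hconst b hb] with x hx
      rw [hx]
      exact hb
    have hZ : {z | ‖Φ z‖ = ‖Φ a‖} = univ := IsClopen.eq_univ ⟨hZc, hZo⟩ ⟨a, rfl⟩
    have h5 : Tendsto (fun z => ‖Φ z‖) (cocompact ℂ) (𝓝 0) := by simpa using hlim.norm
    have h6 : (fun z => ‖Φ z‖) = fun _ => ‖Φ a‖ := by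
      funext z
      have : z ∈ {z | ‖Φ z‖ = ‖Φ a‖} := by rw [hZ]; trivial
      exact this
    rw [h6] at h5
    have h7 := tendsto_nhds_unique h5 tendsto_const_nhds
    linarith
  exact ⟨fun z hz => by rw [← e2 z hz]; exact key z, fun z hz => by rw [← e1 z hz]; exact key z⟩


end H51S
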