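import Pool.Agent.Lib.H51S.S2
import Pool.Agent.Lib.H51S.S5

/-!
# H51S, chunk S6: solutions of the integral equation give functions on the sewn sphere
-/

set_option autoImplicit false

namespace H51S

open Set Metric Topology Filter MeasureTheory
open Pool.Agent.Lib.H27 (dzb)

theorem s6_dzb_zero {κ : ℂ → ℂ} {ζ : ℂ} (h : ζ ∈ interior {z | κ z = 1}) : dzb κ ζ = 0 := by
  have h1 : κ =ᶠ[𝓝 ζ] fun _ => (1 : ℂ) := by
    filter_upwards [isOpen_interior.mem_nhds h] with z hz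
    exact (interior_subset hz : z ∈ {z | κ z = 1})
  unfold dzb
  rw [h1.fderiv_eq]
  simp

theorem s6_sub {W E : Set ℂ} {κ : ℂ → ℂ} (h : Cut W E κ) :
    interior {z | κ z = 1} ⊆ W ∧ E ⊆ interior {z | κ z = 1} := by
  constructor
  · intro z hz
    apply h.sub
    apply subset_tsupport
    have h1 : κ z = 1 := (interior_subset hz : z ∈ {z | κ z = 1})
    rw [Function.mem_support, h1]
    exact one_ne_zero
  · rw [subset_interior_iff_mem_nhdsSet]
    exact h.one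

/-- Let `κ₁` be a cut-off function for `(W, E)`, `O = interior {κ₁ = 1}` and `κ₂` a cut-off function for `(O, E)`.  Let `w` be
holomorphic on `O` with `w + SS w = c z` on `O`.  PROOF.  `O ⊆ W` (`κ₁ = 0` off `W`), `E ⊆ O`, `Hm O E f` (`s3_mono`).  Put
`κ' = push O f κ₂` (a cut-off function for `(f '' O, f '' E)`, `s3_cut`), `g = w ∘ f⁻¹` (`f⁻¹ = Function.invFunOn f O`), holomorphic
on `f '' O \ f '' E`; `G = extPart κ' g`, `v = intPart κ' g` (`s2_ext`, `s2_zero`, `s2_int`).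
For `ζ ∈ tsupport (dzb κ₁)`, `ζ ∉ O`, so `f ζ ∉ f '' O` and `G (f ζ) = - CT (g * dzb κ') (f ζ) = - qq f κ₂ w (f ζ)` (`s3_CT`; only the
values of `w` on `O` matter because `dzb κ₂ = 0` off `O`).  `G ∘ f` is holomorphic on `W \ E`.  For `z ∈ O`:
`intPart κ₁ (G ∘ f) z = CT ((G ∘ f) * dzb κ₁) z = - SS f κ₁ κ₂ w z = w z - c z`.  So for `z ∈ O \ E`:
`v (f z) = w z - G (f z) = c z - extPart κ₁ (G ∘ f) z`; put `u z = c z - extPart κ₁ (G ∘ f) z`. -/
theorem s6_main {W E : Set ℂ} {f κ₁ κ₂ w : ℂ → ℂ} (h : Hm W E f) (h₁ : Cut W E κ₁)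
    (h₂ : Cut (interior {z | κ₁ z = 1}) E κ₂)
    (hw : DifferentiableOn ℂ w (interior {z | κ₁ z = 1})) (c : ℂ)
    (he : ∀ z ∈ interior {z | κ₁ z = 1}, w z + SS f κ₁ κ₂ w z = c * z) :
    ∃ u v G : ℂ → ℂ, DifferentiableOn ℂ u Eᶜ ∧ DifferentiableOn ℂ G (f '' E)ᶜ ∧
      DifferentiableOn ℂ v (f '' interior {z | κ₁ z = 1}) ∧
      Tendsto (fun z => u z - c * z) (cocompact ℂ) (𝓝 0) ∧ Tendsto G (cocompact ℂ) (𝓝 0) ∧
      (∀ z ∈ interior {z | κ₁ z = 1} \ E, u z = v (f z)) ∧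
      ∀ z ∈ interior {z | κ₁ z = 1} \ E, w z = v (f z) + G (f z) := by
  obtain ⟨hOW, hEO⟩ := s6_sub h₁
  set O := interior {z | κ₁ z = 1} with hO
  have hOo : IsOpen O := isOpen_interior
  have hmO : Hm O E f := s3_mono h hOo hOW hEO
  obtain ⟨hinv, hl, himO, himE⟩ := s3_inv hmO
  have hc' : Cut (f '' O) (f '' E) (push O f κ₂) := s3_cut hmO h₂
  set κ' := push O f κ₂ with hκ'
  set F := Function.invFunOn f O with hF
  have hFmaps : MapsTo F (f '' O) O := by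
    rintro _ ⟨z, hz, rfl⟩
    rw [hl z hz]
    exact hz
  have hg : DifferentiableOn ℂ (fun ω => w (F ω)) (f '' O \ f '' E) :=
    hw.comp hinv.d (fun ω hω => hFmaps hω.1)
  set g : ℂ → ℂ := fun ω => w (F ω) with hgdef
  have hgf : ∀ z ∈ O, g (f z) = w z := by
    intro z hz
    show w (F (f z)) = w z
    rw [hl z hz]
  have hG := s2_ext hinv.o hinv.k hc' hg
  have hG0 := s2_zero hinv.o hinv.k hc' hg
  have hv := s2_int hinv.o hinv.k hc' hg
  have hmapsE : MapsTo f (W \ E) (f '' E)ᶜ := by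
    rintro z ⟨hz, hzE⟩ ⟨y, hy, hyz⟩
    exact hzE (h.i (h.sub hy) hz hyz ▸ hy)
  have hGf : DifferentiableOn ℂ (fun z => extPart κ' g (f z)) (W \ E) :=
    hG.comp h.d hmapsE
  have hu := s2_ext h.o h.k h₁ hGf
  have hu0 := s2_zero h.o h.k h₁ hGf
  have hsum : ∀ z ∈ O, w z = intPart κ' g (f z) + extPart κ' g (f z) := by
    intro z hz
    rw [int_add_ext, hgf z hz]
  have hq : ∀ ζ ∈ W, ζ ∉ O → qq f κ₂ w (f ζ) = - extPart κ' g (f ζ) := by
    intro ζ hζ hζO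
    have hnot : f ζ ∉ f '' O := by
      rintro ⟨y, hy, hyz⟩
      exact hζO (h.i (hOW hy) hζ hyz ▸ hy)
    have hk0 : κ' (f ζ) = 0 := by
      rw [hκ']
      unfold push
      rw [if_neg hnot]
    unfold extPart
    rw [hk0, s3_CT hmO h₂ g (f ζ)]
    have : qq f κ₂ (fun ξ => g (f ξ)) (f ζ) = qq f κ₂ w (f ζ) := by
      unfold qq
      congr 2
      funext ξ
      show (f ζ - f ξ)⁻¹ * (g (f ξ) * (dzb κ₂ ξ * deriv f ξ)) = _
      by_cases hξ : ξ ∈ O
      · rw [hgf ξ hξ]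
      · have h0 : dzb κ₂ ξ = 0 := by
          by_contra hne
          exact hξ ((s1_supp h₂).2 (subset_tsupport _ hne)).1
        rw [h0]
        simp
    rw [this]
    ring
  have hSS : ∀ z, SS f κ₁ κ₂ w z =
      - CT (fun ζ => (fun y => extPart κ' g (f y)) ζ * dzb κ₁ ζ) z := by
    intro z
    unfold SS CT
    rw [← mul_neg, ← integral_neg]
    congr 2
    funext ζ
    show (z - ζ)⁻¹ * (qq f κ₂ w (f ζ) * dzb κ₁ ζ) =
      -((z - ζ)⁻¹ * (extPart κ' g (f ζ) * dzb κ₁ ζ))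
    by_cases h0 : dzb κ₁ ζ = 0
    · rw [h0]
      simp
    · have h1 : ζ ∈ W := ((s1_supp h₁).2 (subset_tsupport _ h0)).1
      have h2 : ζ ∉ O := fun hh => h0 (s6_dzb_zero hh)
      rw [hq ζ h1 h2]
      ring
  refine ⟨fun z => c * z - extPart κ₁ (fun y => extPart κ' g (f y)) z, intPart κ' g, extPart κ' g,
    ?_, hG, hv, ?_, hG0, ?_, fun z hz => hsum z hz.1⟩
  · exact (differentiableOn_id.const_mul c).sub hu
  · have := hu0.neg
    rw [neg_zero] at this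
    refine this.congr ?_
    intro z
    ring
  · intro z hz
    have h1 : κ₁ z = 1 := (interior_subset hz.1 : z ∈ {z | κ₁ z = 1})
    have h2 := he z hz.1
    rw [hSS z] at h2
    have h3 := hsum z hz.1
    show c * z - extPart κ₁ (fun y => extPart κ' g (f y)) z = intPart κ' g (f z)
    have h4 : extPart κ₁ (fun y => extPart κ' g (f y)) z = κ₁ z * extPart κ' g (f z) -
      CT (fun ζ => (fun y => extPart κ' g (f y)) ζ * dzb κ₁ ζ) z := rfl
    rw [h4, h1, ← h2, h3]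
    ring

/-- The homogeneous equation has only the zero solution.  PROOF.  `s6_main` with `c = 0`, `O = interior {κ₁ = 1}`; `s5_zero` for
`Hm O E f` gives `v ∘ f = 0` on `O`, so `w z = G (f z)` on `O \ E`; `s5_zero` for `Hm (f '' O) (f '' E) f⁻¹` (`s3_inv`), with `u := G`,
`v := w`, gives `w = 0` on `O`. -/
theorem s6_inj {W E : Set ℂ} {f κ₁ κ₂ w : ℂ → ℂ} (h : Hm W E f) (h₁ : Cut W E κ₁)
    (h₂ : Cut (interior {z | κ₁ z = 1}) E κ₂)
    (hw : DifferentiableOn ℂ w (interior {z | κ₁ z = 1}))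
    (he : ∀ z ∈ interior {z | κ₁ z = 1}, w z + SS f κ₁ κ₂ w z = 0) :
    ∀ z ∈ interior {z | κ₁ z = 1}, w z = 0 := by
  obtain ⟨hOW, hEO⟩ := s6_sub h₁
  obtain ⟨u, v, G, hu, hG, hv, hu0, hG0, huv, hwv⟩ :=
    s6_main h h₁ h₂ hw 0 (fun z hz => by rw [zero_mul]; exact he z hz)
  have hmO : Hm (interior {z | κ₁ z = 1}) E f := s3_mono h isOpen_interior hOW hEO
  obtain ⟨hinv, hl, himO, himE⟩ := s3_inv hmO
  have hu0' : Tendsto u (cocompact ℂ) (𝓝 0) := by
    refine hu0.congr ?_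
    intro z
    ring
  have h1 := (s5_zero hmO hu hv huv hu0').2
  have h2 : ∀ z ∈ interior {z | κ₁ z = 1} \ E, w z = G (f z) := by
    intro z hz
    rw [hwv z hz, h1 z hz.1, zero_add]
  have h3 := (s5_zero (u := G) (v := w) hinv hG (by rw [himO]; exact hw) (by
    rintro _ ⟨⟨z, hz, rfl⟩, hz2⟩
    rw [hl z hz]
    refine (h2 z ⟨hz, fun hzE => hz2 ⟨z, hzE, rfl⟩⟩).symm) hG0).2
  intro z hz
  have h4 := h3 (f z) ⟨z, hz, rfl⟩
  rw [hl z hz] at h4
  exact h4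

end H51S
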