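import Pool.Agent.Lib.H51S.S4
import Pool.Agent.Lib.H51S.S6

/-!
# H51S, chunk S7: the integral equation is solvable (Fredholm alternative)
-/

set_option autoImplicit false

namespace H51S

open Set Metric Topology Filter MeasureTheory
open Pool.Agent.Lib.H27 (dzb)

theorem s7_off {κ : ℂ → ℂ} {ξ : ℂ} (h : ξ ∉ tsupport (dzb κ)) : dzb κ ξ = 0 :=
  image_eq_zero_of_notMem_tsupport h

theorem s7_qcongr {f κ₂ w w' : ℂ → ℂ} (h : ∀ ξ ∈ tsupport (dzb κ₂), w ξ = w' ξ) (ω : ℂ) :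
    qq f κ₂ w ω = qq f κ₂ w' ω := by
  unfold qq
  congr 2
  funext ξ
  by_cases hξ : ξ ∈ tsupport (dzb κ₂)
  · rw [h ξ hξ]
  · rw [s7_off hξ]
    simp

/-- `SS w` depends only on the values of `w` on `tsupport (dzb κ₂)`. -/
theorem s7_congr {f κ₁ κ₂ w w' : ℂ → ℂ} (h : ∀ ξ ∈ tsupport (dzb κ₂), w ξ = w' ξ) (z : ℂ) :
    SS f κ₁ κ₂ w z = SS f κ₁ κ₂ w' z := by
  unfold SS
  congr 1
  funext ζ
  rw [s7_qcongr h]

/-- the kernel of `qq` -/
noncomputable def s7_k2 (f κ₂ : ℂ → ℂ) (ζ ξ : ℂ) : ℂ := (Real.pi : ℂ)⁻¹ * ((f ζ - f ξ)⁻¹ * (dzb κ₂ ξ * deriv f ξ))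

/-- the kernel of `CT` -/
noncomputable def s7_k1 (κ₁ : ℂ → ℂ) (z ζ : ℂ) : ℂ := (Real.pi : ℂ)⁻¹ * ((z - ζ)⁻¹ * dzb κ₁ ζ)

theorem s7_q_eq (f κ₂ w : ℂ → ℂ) (ζ : ℂ) :
    qq f κ₂ w (f ζ) = ∫ ξ in tsupport (dzb κ₂), w ξ * s7_k2 f κ₂ ζ ξ := by
  rw [setIntegral_eq_integral_of_forall_compl_eq_zero (fun ξ hξ => by
    unfold s7_k2
    rw [s7_off hξ]
    simp)]
  unfold qq s7_k2
  rw [← integral_const_mul]
  congr 1
  funext ξ
  ring

theorem s7_CT_eq (κ₁ g : ℂ → ℂ) (z : ℂ) :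
    CT (fun ζ => g ζ * dzb κ₁ ζ) z = ∫ ζ in tsupport (dzb κ₁), g ζ * s7_k1 κ₁ z ζ := by
  rw [setIntegral_eq_integral_of_forall_compl_eq_zero (fun ξ hξ => by
    unfold s7_k1
    rw [s7_off hξ]
    simp)]
  unfold CT s7_k1
  rw [← integral_const_mul]
  congr 1
  funext ξ
  ring

theorem s7_dzb_cont {W E : Set ℂ} {κ : ℂ → ℂ} (h : Cut W E κ) : Continuous (dzb κ) := by
  unfold Pool.Agent.Lib.H27.dzb
  exact continuous_const.mul ((Pool.Agent.Lib.H27.cont_fderiv_apply h.smooth 1).add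
    (continuous_const.mul (Pool.Agent.Lib.H27.cont_fderiv_apply h.smooth Complex.I)))

theorem s7_deriv_cont {W E : Set ℂ} {f : ℂ → ℂ} (h : Hm W E f) : ContinuousOn (deriv f) (W \ E) := by
  have ho : IsOpen (W \ E) := h.o.sdiff h.k.isClosed
  exact (h.d.deriv ho).continuousOn

/-- the kernel of `qq` is continuous off the diagonal -/
theorem s7_k2_cont {W E U A : Set ℂ} {f κ₂ : ℂ → ℂ} (h : Hm W E f) (hd : Continuous (dzb κ₂))
    (hU : U ⊆ W) (hA : A ⊆ W \ E) (hUA : Disjoint U A) :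
    ContinuousOn (fun p : ℂ × ℂ => s7_k2 f κ₂ p.1 p.2) (U ×ˢ A) := by
  unfold s7_k2
  have h1 : ContinuousOn (fun p : ℂ × ℂ => f p.1) (U ×ˢ A) :=
    (h.c.mono hU).comp continuous_fst.continuousOn (fun p hp => hp.1)
  have h2 : ContinuousOn (fun p : ℂ × ℂ => f p.2) (U ×ˢ A) :=
    (h.c.mono (hA.trans sdiff_subset)).comp continuous_snd.continuousOn (fun p hp => hp.2)
  have h3 : ContinuousOn (fun p : ℂ × ℂ => deriv f p.2) (U ×ˢ A) :=
    ((s7_deriv_cont h).mono hA).comp continuous_snd.continuousOn (fun p hp => hp.2)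
  have h4 : ContinuousOn (fun p : ℂ × ℂ => dzb κ₂ p.2) (U ×ˢ A) := (hd.comp continuous_snd).continuousOn
  refine continuousOn_const.mul (((h1.sub h2).inv₀ fun p hp => ?_).mul (h4.mul h3))
  change f p.1 - f p.2 ≠ 0
  rw [sub_ne_zero]
  intro he
  have h5 := h.i (hU hp.1) (hA hp.2).1 he
  exact disjoint_left.1 hUA hp.1 (h5 ▸ hp.2)

theorem s7_k1_cont {U A : Set ℂ} {κ₁ : ℂ → ℂ} (hd : Continuous (dzb κ₁)) (hUA : Disjoint U A) :
    ContinuousOn (fun p : ℂ × ℂ => s7_k1 κ₁ p.1 p.2) (U ×ˢ A) := by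
  unfold s7_k1
  refine continuousOn_const.mul (((continuous_fst.sub continuous_snd).continuousOn.inv₀ fun p hp => ?_).mul
    (hd.comp continuous_snd).continuousOn)
  change p.1 - p.2 ≠ 0
  rw [sub_ne_zero]
  intro he
  exact disjoint_left.1 hUA hp.1 (he ▸ hp.2)

/-- continuity of integrals over a compact set with a continuous kernel -/
theorem s7_par {U A : Set ℂ} (hU : IsOpen U) (hA : IsCompact A) {k : ℂ → ℂ → ℂ}
    (hk : ContinuousOn (fun p : ℂ × ℂ => k p.1 p.2) (U ×ˢ A)) {w : ℂ → ℂ} (hw : ContinuousOn w A) :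
    ContinuousOn (fun z => ∫ ξ in A, w ξ * k z ξ) U := by
  intro z hz
  apply ContinuousAt.continuousWithinAt
  obtain ⟨r, hr, hrs⟩ := Metric.nhds_basis_closedBall.mem_iff.1 (hU.mem_nhds hz)
  have : CompactSpace A := isCompact_iff_compactSpace.1 hA
  have : CompactSpace (closedBall z r) := isCompact_iff_compactSpace.1 (isCompact_closedBall z r)
  obtain ⟨T, -, hT⟩ := s4_op (A := A) (B := closedBall z r) (hk.mono (prod_mono hrs Subset.rfl))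
  let w₀ : C(A, ℂ) := ⟨fun ξ => w ξ, continuousOn_iff_continuous_domRestrict.1 hw⟩
  have h1 : ∀ y : closedBall z r, T w₀ y = ∫ ξ in A, w ξ * k y ξ := fun y => hT w₀ w (fun ξ => rfl) y
  have h2 : ContinuousOn (fun z => ∫ ξ in A, w ξ * k z ξ) (closedBall z r) := by
    rw [continuousOn_iff_continuous_domRestrict]
    refine (T w₀).continuous.congr fun y => ?_
    rw [h1 y]
    rfl
  exact h2.continuousAt (closedBall_mem_nhds z hr)

theorem s7_A1 (κ₁ : ℂ → ℂ) :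
    Disjoint (interior {z | κ₁ z = 1}) (tsupport (dzb κ₁)) := by
  rw [disjoint_left]
  intro z hz hz'
  refine (notMem_tsupport_iff_eventuallyEq.mpr ?_) hz'
  filter_upwards [isOpen_interior.mem_nhds hz] with x hx
  exact s6_dzb_zero hx

/-- `SS w` is holomorphic on `O = interior {κ₁ = 1}` if `w` is continuous on `tsupport (dzb κ₂)`.  PROOF.
`O ∩ tsupport (dzb κ₁) = ∅` and `tsupport (dzb κ₂) ⊆ O`.  The function `ζ ↦ qq f κ₂ w (f ζ)` is continuous on `tsupport (dzb κ₁)`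
(the kernel `(f ζ - f ξ)⁻¹` is continuous for `ζ ∈ tsupport (dzb κ₁)`, `ξ ∈ tsupport (dzb κ₂)`: disjoint compact sets), so
`ζ ↦ qq f κ₂ w (f ζ) * dzb κ₁ ζ` is continuous on the plane (it vanishes off `tsupport (dzb κ₁)`; near a boundary point of the
support it is bounded times `dzb κ₁ → 0`; or use that `qq f κ₂ w (f ζ)` is continuous on a neighbourhood of
`tsupport (dzb κ₁)` in `W`).  `s1_diff`. -/
theorem s7_diff {W E : Set ℂ} {f κ₁ κ₂ w : ℂ → ℂ} (h : Hm W E f) (h₁ : Cut W E κ₁)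
    (h₂ : Cut (interior {z | κ₁ z = 1}) E κ₂) (hw : ContinuousOn w (tsupport (dzb κ₂))) :
    DifferentiableOn ℂ (SS f κ₁ κ₂ w) (interior {z | κ₁ z = 1}) := by
  obtain ⟨hOW, hEO⟩ := s6_sub h₁
  obtain ⟨c1, c2⟩ := s1_supp h₂
  have hA2 : tsupport (dzb κ₂) ⊆ W \ E := fun x hx => ⟨hOW (c2 hx).1, (c2 hx).2⟩
  have hcut : Cut W (tsupport (dzb κ₂)) κ₁ := by
    refine ⟨h₁.smooth, h₁.cs, h₁.sub, ?_⟩
    rw [eventually_nhdsSet_iff_forall]
    intro x hx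
    filter_upwards [isOpen_interior.mem_nhds (c2 hx).1] with y hy
    exact (interior_subset hy : y ∈ {z | κ₁ z = 1})
  have hg : ContinuousOn (fun ζ => qq f κ₂ w (f ζ)) (W \ tsupport (dzb κ₂)) := by
    have h3 := s7_par (h.o.sdiff c1.isClosed) c1
      (s7_k2_cont h (s7_dzb_cont h₂) sdiff_subset hA2 disjoint_sdiff_left) hw
    refine h3.congr fun ζ _ => ?_
    exact s7_q_eq f κ₂ w ζ
  obtain ⟨d1, d2, d3⟩ := s1_cont h.o c1 hcut hg
  have h5 := s1_diff d1 d2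
  refine h5.mono fun z hz hz' => ?_
  exact disjoint_left.1 (s7_A1 κ₁) hz (d3 hz')

/-- The compact operator.  PROOF.  Two applications of `s4_op`: the kernels `π⁻¹ * (f ζ - f ξ)⁻¹ * dzb κ₂ ξ * deriv f ξ`
(`ζ ∈ A₁`, `ξ ∈ A₂`) and `π⁻¹ * (z - ζ)⁻¹ * dzb κ₁ ζ` (`z ∈ A₂`, `ζ ∈ A₁`), `A₁ = tsupport (dzb κ₁)`, `A₂ = tsupport (dzb κ₂)`;
the composition of a compact operator with a continuous one is compact. -/
theorem s7_op {W E : Set ℂ} {f κ₁ κ₂ : ℂ → ℂ} (h : Hm W E f) (h₁ : Cut W E κ₁)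
    (h₂ : Cut (interior {z | κ₁ z = 1}) E κ₂) [CompactSpace (tsupport (dzb κ₂))] :
    ∃ T : C(tsupport (dzb κ₂), ℂ) →L[ℂ] C(tsupport (dzb κ₂), ℂ), IsCompactOperator T ∧
      ∀ (w : C(tsupport (dzb κ₂), ℂ)) (w' : ℂ → ℂ), (∀ ξ : tsupport (dzb κ₂), w' ξ = w ξ) →
        ∀ z : tsupport (dzb κ₂), T w z = SS f κ₁ κ₂ w' z := by
  obtain ⟨hOW, hEO⟩ := s6_sub h₁
  obtain ⟨c1, c2⟩ := s1_supp h₂
  obtain ⟨e1, e2⟩ := s1_supp h₁
  have hA2 : tsupport (dzb κ₂) ⊆ W \ E := fun x hx => ⟨hOW (c2 hx).1, (c2 hx).2⟩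
  have : CompactSpace (tsupport (dzb κ₁)) := isCompact_iff_compactSpace.1 e1
  have hdis : Disjoint (tsupport (dzb κ₂)) (tsupport (dzb κ₁)) :=
    (s7_A1 κ₁).mono_left (fun x hx => (c2 hx).1)
  obtain ⟨T₂, k2, hT₂⟩ := s4_op (A := tsupport (dzb κ₂)) (B := tsupport (dzb κ₁))
    (s7_k2_cont h (s7_dzb_cont h₂) (e2.trans sdiff_subset) hA2 hdis.symm)
  obtain ⟨T₁, -, hT₁⟩ := s4_op (A := tsupport (dzb κ₁)) (B := tsupport (dzb κ₂))
    (s7_k1_cont (s7_dzb_cont h₁) hdis)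
  refine ⟨T₁.comp T₂, ?_, fun w w' hw z => ?_⟩
  · rw [ContinuousLinearMap.coe_comp]
    exact k2.clm_comp T₁
  · rw [ContinuousLinearMap.comp_apply, hT₁ (T₂ w) (fun ζ => qq f κ₂ w' (f ζ)) (fun ζ => by
      rw [hT₂ w w' hw ζ, s7_q_eq]) z]
    unfold SS
    rw [s7_CT_eq]

/-- Solvability.  PROOF.  `IsCompactOperator.hasEigenvalue_or_mem_resolventSet` with `μ = -1` for the operator `T` of `s7_op`.
If `-1` is an eigenvalue, `T w = - w`, `w ≠ 0`: let `w'` be an extension of `w` by `0`, `w'' z = - SS w' z`; by `s7_diff` it is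
holomorphic on `O`, `w'' = w'` on `A₂`, so `SS w'' = SS w'` (`s7_congr`) and `w'' + SS w'' = 0` on `O`, so `w'' = 0` on `O`
(`s6_inj`) and `w = 0`, contradiction.  Otherwise `T + 1` is bijective; choose `w` with `w + T w = id` on `A₂`, extend it by `0` to
`w'`, and put `w'' z = z - SS w' z`; as before `w'' + SS w'' = id` on `O`. -/
theorem s7_solve {W E : Set ℂ} {f κ₁ κ₂ : ℂ → ℂ} (h : Hm W E f) (h₁ : Cut W E κ₁)
    (h₂ : Cut (interior {z | κ₁ z = 1}) E κ₂) :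
    ∃ w : ℂ → ℂ, DifferentiableOn ℂ w (interior {z | κ₁ z = 1}) ∧
      ∀ z ∈ interior {z | κ₁ z = 1}, w z + SS f κ₁ κ₂ w z = z := by
  classical
  obtain ⟨c1, c2⟩ := s1_supp h₂
  have : CompactSpace (tsupport (dzb κ₂)) := isCompact_iff_compactSpace.1 c1
  obtain ⟨T, hTc, hT⟩ := s7_op h h₁ h₂
  have hext : ∀ v : C(tsupport (dzb κ₂), ℂ), ∃ w' : ℂ → ℂ, (∀ ξ : tsupport (dzb κ₂), w' ξ = v ξ) ∧
      ContinuousOn w' (tsupport (dzb κ₂)) := by
    intro v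
    let w' : ℂ → ℂ := fun z => if hz : z ∈ tsupport (dzb κ₂) then v ⟨z, hz⟩ else 0
    have h3 : ∀ ξ : tsupport (dzb κ₂), w' ξ = v ξ := by
      intro ξ
      show (if hz : (ξ : ℂ) ∈ tsupport (dzb κ₂) then v ⟨ξ, hz⟩ else 0) = v ξ
      rw [dif_pos ξ.2]
    refine ⟨w', h3, ?_⟩
    rw [continuousOn_iff_continuous_domRestrict]
    refine v.continuous.congr fun ξ => ?_
    rw [domRestrict_apply]
    exact (h3 ξ).symm
  rcases hTc.hasEigenvalue_or_mem_resolventSet (μ := (-1 : ℂ)) (by norm_num) with he | he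
  · exfalso
    obtain ⟨v, hv⟩ := he.exists_hasEigenvector
    have hv1 : T v = (-1 : ℂ) • v := hv.apply_eq_smul
    obtain ⟨w', hw1, hw2⟩ := hext v
    have hd := (s7_diff h h₁ h₂ hw2).neg
    have hA : ∀ ξ ∈ tsupport (dzb κ₂), -SS f κ₁ κ₂ w' ξ = w' ξ := by
      intro ξ hξ
      have h3 := hT v w' hw1 ⟨ξ, hξ⟩
      rw [hv1] at h3
      have h4 := hw1 ⟨ξ, hξ⟩
      simp only [ContinuousMap.smul_apply, smul_eq_mul] at h3 h4
      rw [← h3, h4]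
      ring
    have h5 := s6_inj h h₁ h₂ hd (fun z hz => by
      show -SS f κ₁ κ₂ w' z + SS f κ₁ κ₂ (fun z => -SS f κ₁ κ₂ w' z) z = 0
      rw [s7_congr hA z]
      ring)
    apply hv.2
    ext ξ
    have h6 : -SS f κ₁ κ₂ w' ξ = 0 := h5 ξ (c2 ξ.2).1
    rw [hA ξ ξ.2, hw1 ξ] at h6
    exact h6
  · rw [spectrum.mem_resolventSet_iff, ContinuousLinearMap.isUnit_iff_bijective] at he
    let i₀ : C(tsupport (dzb κ₂), ℂ) := ⟨fun ξ => (ξ : ℂ), continuous_subtype_val⟩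
    obtain ⟨v, hv⟩ := he.2 (-i₀)
    have hv1 : ∀ ξ : tsupport (dzb κ₂), v ξ + T v ξ = ξ := by
      intro ξ
      have h3 := congrArg (fun u : C(tsupport (dzb κ₂), ℂ) => u ξ) hv
      simp only [_root_.sub_apply, Algebra.algebraMap_eq_smul_one, _root_.smul_apply,
        one_apply_eq_self, ContinuousMap.sub_apply, ContinuousMap.smul_apply, ContinuousMap.neg_apply,
        smul_eq_mul, neg_mul, one_mul] at h3
      have h4 : i₀ ξ = (ξ : ℂ) := rfl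
      rw [h4] at h3
      linear_combination -h3
    obtain ⟨w', hw1, hw2⟩ := hext v
    have hd := s7_diff h h₁ h₂ hw2
    have hA : ∀ ξ ∈ tsupport (dzb κ₂), ξ - SS f κ₁ κ₂ w' ξ = w' ξ := by
      intro ξ hξ
      have h3 := hT v w' hw1 ⟨ξ, hξ⟩
      have h4 := hw1 ⟨ξ, hξ⟩
      have h5 := hv1 ⟨ξ, hξ⟩
      simp only at h3 h4 h5
      rw [← h3, h4]
      linear_combination -h5
    refine ⟨fun z => z - SS f κ₁ κ₂ w' z, differentiableOn_id.sub hd, fun z hz => ?_⟩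
    show z - SS f κ₁ κ₂ w' z + SS f κ₁ κ₂ (fun z => z - SS f κ₁ κ₂ w' z) z = z
    rw [s7_congr hA z]
    ring

end H51S
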