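import Pool.Agent.Lib.H51S.S5

/-!
# H51S, chunk S8b: injectivity (topology)
-/

set_option autoImplicit false

namespace H51S

open Set Metric Topology Filter MeasureTheory

/-- Injectivity.  PROOF.  Abstract: `Φ` is continuous, proper (`‖Φ z‖ → ∞`), open at every point, locally injective off a
countable set `C`, and injective and locally injective over large `w`.  Let
`B₁ = {w | ∃ a ≠ b, Φ a = w ∧ Φ b = w}`, `B = B₁ ∪ {w | ∃ a, Φ a = w ∧ Φ not locally injective at a}`.  `B₁` is open (`Φ` is open at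
`a` and at `b`: disjoint neighbourhoods).  `B` is closed: let `w_n → w`, `w_n ∈ B`; there are `a_n ≠ b_n` with
`Φ a_n = Φ b_n`, `Φ a_n → w` (for a point of the second kind choose two different points near `a` with the same image), bounded
(proper), so subsequences converge to `a, b`, `Φ a = Φ b = w`; if `a ≠ b`, `w ∈ B₁`; if `a = b`, `Φ` is not locally injective at `a`.
So `closure B₁ \ B₁ ⊆ B \ B₁ ⊆ Φ '' C` is countable.  The complement of a countable set in the plane is connected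
(`Set.Countable.isPathConnected_compl_of_one_lt_rank`, `Complex.rank_real_complex`), and it is covered by the disjoint open sets `B₁` and
`(closure B₁)ᶜ`; large `w` are in the second (large `w` are not in `B` and `B` is closed).  So `B₁ = ∅`. -/
theorem s8_abs {Φ : ℂ → ℂ} (hc : Continuous Φ) (hp : Tendsto Φ (cocompact ℂ) (cocompact ℂ))
    (ho : ∀ z, 𝓝 (Φ z) ≤ map Φ (𝓝 z)) (hC : {z | ∀ V ∈ 𝓝 z, ¬ InjOn Φ V}.Countable) {M : ℝ}
    (hM : ∀ w : ℂ, M < ‖w‖ → (∀ a b, Φ a = w → Φ b = w → a = b) ∧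
      ∀ a, Φ a = w → ∃ V ∈ 𝓝 a, InjOn Φ V) : Function.Injective Φ := by
  set C : Set ℂ := {z | ∀ V ∈ 𝓝 z, ¬ InjOn Φ V} with hCdef
  set Q : Set ℂ := Φ '' C with hQ
  have hQc : Q.Countable := hC.image Φ
  set B : Set ℂ := {w | ∃ a b, a ≠ b ∧ Φ a = w ∧ Φ b = w} with hB
  have hBo : IsOpen B := by
    rw [isOpen_iff_mem_nhds]
    rintro w ⟨a, b, hab, ha, hb⟩
    obtain ⟨U, V, hU, hV, haU, hbV, hUV⟩ := t2_separation hab
    have h1 : Φ '' U ∈ 𝓝 w := by
      rw [← ha]
      exact ho a (image_mem_map (hU.mem_nhds haU))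
    have h2 : Φ '' V ∈ 𝓝 w := by
      rw [← hb]
      exact ho b (image_mem_map (hV.mem_nhds hbV))
    filter_upwards [h1, h2]
    rintro x ⟨y, hy, hyx⟩ ⟨z, hz, hzx⟩
    exact ⟨y, z, fun h => disjoint_left.1 hUV hy (h ▸ hz), hyx, hzx⟩
  have hcl : closure B ⊆ B ∪ Q := by
    intro w hw
    obtain ⟨s, hs, hlim⟩ := mem_closure_iff_seq_limit.1 hw
    choose a b hab ha hb using hs
    obtain ⟨R, hR⟩ := isBounded_iff_forall_norm_le.1 (Metric.isBounded_range_of_tendsto s hlim)
    have h1 : (closedBall (0 : ℂ) R)ᶜ ∈ cocompact ℂ := (isCompact_closedBall 0 R).compl_mem_cocompact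
    obtain ⟨K, hK, hKs⟩ := mem_cocompact.1 (hp h1)
    have h2 : ∀ z, ‖Φ z‖ ≤ R → z ∈ K := by
      intro z hz
      by_contra hzK
      have h3 := hKs hzK
      exact h3 (by rw [mem_closedBall_zero_iff]; exact hz)
    have haK : ∀ n, (a n, b n) ∈ K ×ˢ K := fun n =>
      ⟨h2 _ (by rw [ha]; exact hR _ (mem_range_self n)), h2 _ (by rw [hb]; exact hR _ (mem_range_self n))⟩
    obtain ⟨⟨a₀, b₀⟩, -, φ, hφ, hφl⟩ := (hK.prod hK).tendsto_subseq haK
    have hal : Tendsto (fun n => a (φ n)) atTop (𝓝 a₀) := (continuous_fst.tendsto _).comp hφl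
    have hbl : Tendsto (fun n => b (φ n)) atTop (𝓝 b₀) := (continuous_snd.tendsto _).comp hφl
    have hsl := hlim.comp hφ.tendsto_atTop
    have e1 : Φ a₀ = w := by
      refine tendsto_nhds_unique ((hc.tendsto a₀).comp hal) ?_
      refine hsl.congr fun n => ?_
      exact (ha (φ n)).symm
    have e2 : Φ b₀ = w := by
      refine tendsto_nhds_unique ((hc.tendsto b₀).comp hbl) ?_
      refine hsl.congr fun n => ?_
      exact (hb (φ n)).symm
    by_cases hne : a₀ = b₀
    · right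
      refine ⟨a₀, fun V hV hinj => ?_, e1⟩
      rw [← hne] at hbl
      obtain ⟨n, hn1, hn2⟩ := ((hal.eventually hV).and (hbl.eventually hV)).exists
      exact hab (φ n) (hinj hn1 hn2 (by rw [ha, hb]))
    · exact Or.inl ⟨a₀, b₀, hne, e1, e2⟩
  have hBe : B = ∅ := by
    by_contra hBne
    obtain ⟨w₁, hw₁B, hw₁Q⟩ : (B ∩ Qᶜ).Nonempty :=
      (hQc.dense_compl ℝ).inter_open_nonempty B hBo (nonempty_iff_ne_empty.2 hBne)
    have hbig : ∀ w : ℂ, M < ‖w‖ → w ∉ B ∧ w ∉ Q := by
      intro w hw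
      refine ⟨?_, ?_⟩
      · rintro ⟨a, b, hab, ha, hb⟩
        exact hab ((hM w hw).1 a b ha hb)
      · rintro ⟨a, haC, ha⟩
        obtain ⟨V, hV, hVi⟩ := (hM w hw).2 a ha
        exact haC V hV hVi
    obtain ⟨w₂, hw₂⟩ : ∃ w : ℂ, M < ‖w‖ := by
      refine ⟨((|M| + 1 : ℝ) : ℂ), ?_⟩
      rw [Complex.norm_real, Real.norm_eq_abs, abs_of_pos (by positivity)]
      linarith [le_abs_self M]
    have hw₂' := hbig w₂ hw₂
    have hrank : 1 < Module.rank ℝ ℂ := by
      rw [Complex.rank_real_complex]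
      norm_num
    have hpc : IsPreconnected Qᶜ :=
      (hQc.isPathConnected_compl_of_one_lt_rank hrank).isConnected.isPreconnected
    obtain ⟨x, -, hx1, hx2⟩ := hpc B (closure B)ᶜ hBo isClosed_closure.isOpen_compl (by
      intro w hw
      by_cases h : w ∈ closure B
      · rcases hcl h with h' | h'
        · exact Or.inl h'
        · exact absurd h' hw
      · exact Or.inr h) ⟨w₁, hw₁Q, hw₁B⟩ ⟨w₂, hw₂'.2, fun h => by
        rcases hcl h with h' | h'
        · exact hw₂'.1 h'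
        · exact hw₂'.2 h'⟩
    exact hx2 (subset_closure hx1)
  intro a b hab
  by_contra hne
  have : Φ a ∈ B := ⟨a, b, hne, rfl, hab.symm⟩
  rw [hBe] at this
  exact this

end H51S
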